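import Mathlib
import Pool.Agent.N208.LC.Stm

/-!
# Balanced words in low degree

The subtask LC/BAL of helper208.
-/

set_option autoImplicit false

namespace Pool.Agent.N692.LCBAL

open Pool.Agent.N208.LC

theorem pt (P N : ℕ) (T ι : Type) [DecidableEq T] [Fintype ι] [DecidableEq ι]
    (pl : T → Fin P) (I : ι → Ix N T) (b : Fin P) (q : Fin N) :
    (Finset.univ.filter fun k => (pl (I k).2.2, (I k).2.1) = (b, q)).card =
      (wt pl I b q).natAbs + 2 * min
        (Finset.univ.filter fun k => (I k).1 = true ∧ (I k).2.1 = q ∧ pl (I k).2.2 = b).card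
        (Finset.univ.filter fun k => (I k).1 = false ∧ (I k).2.1 = q ∧ pl (I k).2.2 = b).card := by
  have h1 : (Finset.univ.filter fun k => (pl (I k).2.2, (I k).2.1) = (b, q)) =
      (Finset.univ.filter fun k => (I k).1 = true ∧ (I k).2.1 = q ∧ pl (I k).2.2 = b) ∪
      (Finset.univ.filter fun k => (I k).1 = false ∧ (I k).2.1 = q ∧ pl (I k).2.2 = b) := by
    ext k
    simp only [Finset.mem_filter, Finset.mem_univ, true_and, Finset.mem_union, Prod.mk.injEq]
    rcases h : (I k).1 <;> simp <;> tauto
  have h2 : Disjoint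
      (Finset.univ.filter fun k => (I k).1 = true ∧ (I k).2.1 = q ∧ pl (I k).2.2 = b)
      (Finset.univ.filter fun k => (I k).1 = false ∧ (I k).2.1 = q ∧ pl (I k).2.2 = b) := by
    rw [Finset.disjoint_left]
    intro k hk hk'
    simp only [Finset.mem_filter, Finset.mem_univ, true_and] at hk hk'
    rw [hk.1] at hk'
    exact absurd hk'.1 (by simp)
  rw [h1, Finset.card_union_of_disjoint h2]
  unfold wt
  omega

/-- **LC/BAL.** -/
theorem main : S_BAL := by
  intro P N k T ι _ _ _ pl hc hN I hI b p
  by_contra hne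
  have hsum : 2 * k = N * (∑ a : Fin P, (wt pl I a p).natAbs) + 2 * ∑ a : Fin P, ∑ q : Fin N, min
      (Finset.univ.filter fun k => (I k).1 = true ∧ (I k).2.1 = q ∧ pl (I k).2.2 = a).card
      (Finset.univ.filter fun k => (I k).1 = false ∧ (I k).2.1 = q ∧ pl (I k).2.2 = a).card := by
    have e1 : (Finset.univ : Finset ι).card = ∑ x : Fin P × Fin N,
        (Finset.univ.filter fun k => (pl (I k).2.2, (I k).2.1) = x).card :=
      Finset.card_eq_sum_card_fiberwise (fun _ _ => Finset.mem_univ _)
    rw [Finset.card_univ, hc, Fintype.sum_prod_type] at e1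
    rw [e1, Finset.mul_sum, Finset.mul_sum, ← Finset.sum_add_distrib]
    refine Finset.sum_congr rfl fun a _ => ?_
    have e2 : N * (wt pl I a p).natAbs = ∑ q : Fin N, (wt pl I a q).natAbs := by
      rw [Finset.sum_congr rfl fun q _ => by rw [hI a q p]]
      simp
    rw [e2, Finset.mul_sum, ← Finset.sum_add_distrib]
    exact Finset.sum_congr rfl fun q _ => pt P N T ι pl I a q
  have hpos : 1 ≤ ∑ a : Fin P, (wt pl I a p).natAbs := by
    have h1 : (wt pl I b p).natAbs ≤ ∑ a : Fin P, (wt pl I a p).natAbs :=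
      Finset.single_le_sum (f := fun a => (wt pl I a p).natAbs) (fun _ _ => Nat.zero_le _)
        (Finset.mem_univ b)
    have h2 : 1 ≤ (wt pl I b p).natAbs := Nat.one_le_iff_ne_zero.2 (Int.natAbs_ne_zero.2 hne)
    omega
  generalize (∑ a : Fin P, (wt pl I a p).natAbs) = S at hsum hpos
  generalize (∑ a : Fin P, ∑ q : Fin N, min
      (Finset.univ.filter fun k => (I k).1 = true ∧ (I k).2.1 = q ∧ pl (I k).2.2 = a).card
      (Finset.univ.filter fun k => (I k).1 = false ∧ (I k).2.1 = q ∧ pl (I k).2.2 = a).card) = M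
    at hsum
  rcases hN with h | ⟨ho, h⟩
  · nlinarith
  · have h3 : Even (N * S) := by
      have : Even (N * S + 2 * M) := by rw [← hsum]; exact even_two_mul k
      exact (Nat.even_add.1 this).2 (even_two_mul M)
    have h4 : Even S := by
      rcases Nat.even_mul.1 h3 with h5 | h5
      · exact absurd ho (Nat.not_odd_iff_even.2 h5)
      · exact h5
    obtain ⟨r, hr⟩ := h4
    have h6 : 2 ≤ S := by omega
    nlinarith

end Pool.Agent.N692.LCBAL
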