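import Mathlib
import Pool.Agent.N753.SU.Stm

/-!
# SU/R: integral models and bad primes of the fibres
-/

set_option autoImplicit false
set_option linter.unusedSectionVars false

namespace Pool.Agent.N692.SUR

open NumberField IsDedekindDomain Finset Pool.Agent.H691R3
open Pool.Agent.TH876.Loc hiding mx
open Pool.Agent.N753.LS Pool.Agent.N753.SF Pool.Agent.N753.SU Polynomial Height

variable {K : Type} [Field K] [NumberField K]

open Classical in
/-- the primes at which `z` is not a unit -/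
noncomputable def su (z : K) : Finset (Pr K) :=
  if h : z ≠ 0 then (fv_support_finite h).toFinset else ∅

theorem mem_su {z : K} (hz : z ≠ 0) (v : Pr K) : v ∈ su z ↔ fv v z ≠ 1 := by
  unfold su
  rw [dif_pos hz, Set.Finite.mem_toFinset]
  rfl

theorem fv_le_of_notMem {z : K} {v : Pr K} (hv : v ∉ su z) : fv v z ≤ 1 := by
  by_cases hz : z = 0
  · rw [hz, map_zero]; exact zero_le_one
  · rw [mem_su hz, not_not] at hv
    exact hv.le

/-- the sum of `log Nv` -/
noncomputable def sl (s : Finset (Pr K)) : ℝ := ∑ v ∈ s, Real.log (Nv v)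

theorem sl_mono {s t : Finset (Pr K)} (h : s ⊆ t) : sl s ≤ sl t :=
  Finset.sum_le_sum_of_subset_of_nonneg h fun v _ _ => (log_Nv_pos v).le

open Classical in
theorem sl_union (s t : Finset (Pr K)) : sl (s ∪ t) ≤ sl s + sl t := by
  unfold sl
  rw [← Finset.sum_union_inter]
  have : 0 ≤ ∑ v ∈ s ∩ t, Real.log (Nv v) := Finset.sum_nonneg fun v _ => (log_Nv_pos v).le
  linarith

theorem sl_su_le (a : K) : sl (su a) ≤ 2 * logHeight₁ a := by
  classical
  by_cases ha : a = 0
  · have : su a = ∅ := by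
      unfold su
      rw [dif_neg (not_not.2 ha)]
    rw [this]
    have := zero_le_logHeight₁ a
    unfold sl
    rw [Finset.sum_empty]
    positivity
  have h1 := fin_le_hr a (su a)
  have h2 := fin_le_hr a⁻¹ (su a)
  rw [logHeight₁_inv] at h2
  have h3 : ∑ v ∈ su a, Real.log (Nv v) ≤
      ∑ v ∈ su a, (Real.log (max (fv v a) 1) + Real.log (max (fv v a⁻¹) 1)) := by
    refine Finset.sum_le_sum fun v hv => ?_
    have hnn : ∀ b : K, 0 ≤ Real.log (max (fv v b) 1) := fun b =>
      Real.log_nonneg (le_max_right _ _)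
    rw [mem_su ha] at hv
    rcases lt_trichotomy (fv v a) 1 with h | h | h
    · have h4 : 1 < fv v a⁻¹ := by
        rw [map_inv₀]
        exact (one_lt_inv₀ ((fv v).pos ha)).2 h
      have := log_fv_ge v h4
      linarith [hnn a]
    · exact absurd h hv
    · have := log_fv_ge v h
      linarith [hnn a⁻¹]
  rw [Finset.sum_add_distrib] at h3
  unfold sl
  linarith

theorem su_mul_subset {a b : K} (ha : a ≠ 0) (hb : b ≠ 0) :
    (open Classical in su (a * b) ⊆ su a ∪ su b) := by
  classical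
  intro v hv
  rw [mem_su (mul_ne_zero ha hb)] at hv
  rw [Finset.mem_union, mem_su ha, mem_su hb]
  by_contra hcon
  rw [not_or, not_not, not_not] at hcon
  apply hv
  rw [map_mul, hcon.1, hcon.2, mul_one]

theorem sl_su_mul {a b : K} (ha : a ≠ 0) (hb : b ≠ 0) : sl (su (a * b)) ≤ sl (su a) + sl (su b) := by
  classical
  refine (sl_mono ?_).trans (sl_union _ _)
  have := su_mul_subset ha hb
  convert this

/-- the height of the value of a polynomial -/
theorem height_eval (f : K[X]) : ∃ C : ℝ, 0 ≤ C ∧ ∀ x : K,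
    logHeight₁ (f.eval x) ≤ C * (1 + logHeight₁ x) := by
  induction f using Polynomial.induction_on' with
  | add p q hp hq =>
    obtain ⟨C, hC, h1⟩ := hp
    obtain ⟨D, hD, h2⟩ := hq
    have hw : 0 ≤ (totalWeight K : ℝ) * Real.log 2 :=
      mul_nonneg (Nat.cast_nonneg _) (Real.log_nonneg (by norm_num))
    refine ⟨C + D + totalWeight K * Real.log 2, by positivity, fun x => ?_⟩
    rw [eval_add]
    refine (logHeight₁_add_le _ _).trans ?_
    have h3 := h1 x
    have h4 := h2 x
    have h5 := zero_le_logHeight₁ x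
    nlinarith
  | monomial n a =>
    refine ⟨logHeight₁ a + n, by
      have := zero_le_logHeight₁ a
      positivity, fun x => ?_⟩
    rw [eval_monomial]
    refine (logHeight₁_mul_le _ _).trans ?_
    rw [logHeight₁_pow]
    have h5 := zero_le_logHeight₁ x
    have h6 := zero_le_logHeight₁ a
    have h7 : (0 : ℝ) ≤ n := Nat.cast_nonneg _
    nlinarith

theorem height_nat {n : ℕ} (hn : n ≠ 0) :
    logHeight₁ (n : K) ≤ totalWeight K * Real.log n := by
  rw [NumberField.logHeight₁_eq]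
  have h1 : ∑ᶠ v : FinitePlace K, Real.posLog (v (n : K)) = 0 := by
    apply finsum_eq_zero_of_forall_eq_zero
    intro v
    obtain ⟨w, rfl⟩ : ∃ w, v = FinitePlace.mk w := ⟨v.maximalIdeal, (FinitePlace.mk_maximalIdeal v).symm⟩
    have h2 : (FinitePlace.mk w) (n : K) ≤ 1 := fv_natCast_le w n
    rw [Real.posLog_eq_zero_iff, abs_of_nonneg (apply_nonneg _ _)]
    exact h2
  rw [h1, add_zero, NumberField.totalWeight_eq_sum_mult]
  push_cast
  rw [Finset.sum_mul]
  refine Finset.sum_le_sum fun v _ => mul_le_mul_of_nonneg_left ?_ (Nat.cast_nonneg _)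
  have h3 : v (n : K) = n := by
    rw [← InfinitePlace.norm_embedding_eq, map_natCast, Complex.norm_natCast]
  rw [h3, Real.posLog_eq_log]
  rw [abs_of_nonneg (Nat.cast_nonneg _)]
  exact_mod_cast Nat.one_le_iff_ne_zero.2 hn

/-- a common denominator of finitely many elements -/
theorem den_fin {ι : Type} (s : Finset ι) (z : ι → K) : ∃ d : 𝓞 K, d ≠ 0 ∧
    (∀ i ∈ s, ∃ r : 𝓞 K, algebraMap (𝓞 K) K r = algebraMap (𝓞 K) K d * z i) ∧
    sl (su (algebraMap (𝓞 K) K d)) ≤ 2 * totalWeight K * ∑ i ∈ s, logHeight₁ (z i) := by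
  classical
  induction s using Finset.induction_on with
  | empty =>
    refine ⟨1, one_ne_zero, fun i hi => absurd hi (Finset.notMem_empty i), ?_⟩
    have h := sl_su_le (1 : K)
    rw [map_one]
    simpa using h
  | insert i s hi ih =>
    obtain ⟨d, hd, h1, h2⟩ := ih
    obtain ⟨n, hn, hnh, hint⟩ := NumberField.exists_nat_le_mulHeight₁ (z i)
    have hn0 : (n : 𝓞 K) ≠ 0 := by exact_mod_cast hn
    have hd' : algebraMap (𝓞 K) K d ≠ 0 := by
      rw [Ne, FaithfulSMul.algebraMap_eq_zero_iff]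
      exact hd
    have hn' : algebraMap (𝓞 K) K (n : 𝓞 K) ≠ 0 := by
      rw [Ne, FaithfulSMul.algebraMap_eq_zero_iff]
      exact hn0
    refine ⟨d * n, mul_ne_zero hd hn0, ?_, ?_⟩
    · intro j hj
      rcases Finset.mem_insert.1 hj with rfl | hj
      · obtain ⟨r, hr⟩ : ∃ r : 𝓞 K, algebraMap (𝓞 K) K r = n * z j := ⟨⟨_, hint⟩, rfl⟩
        refine ⟨d * r, ?_⟩
        rw [map_mul, map_mul, hr, map_natCast]
        ring
      · obtain ⟨r, hr⟩ := h1 j hj
        refine ⟨n * r, ?_⟩
        rw [map_mul, map_mul, hr]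
        ring
    · rw [map_mul, Finset.sum_insert hi]
      refine (sl_su_mul hd' hn').trans ?_
      have h3 := sl_su_le (algebraMap (𝓞 K) K (n : 𝓞 K))
      rw [map_natCast] at h3 ⊢
      have h4 := height_nat (K := K) hn
      have h5 : Real.log n ≤ logHeight₁ (z i) := by
        rw [logHeight₁_eq_log_mulHeight₁]
        exact Real.log_le_log (by exact_mod_cast Nat.pos_of_ne_zero hn) hnh
      have h6 : (totalWeight K : ℝ) * Real.log n ≤ totalWeight K * logHeight₁ (z i) :=
        mul_le_mul_of_nonneg_left h5 (Nat.cast_nonneg _)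
      linarith

/-- integral multiples of the fibres -/
theorem den_poly (P : K[X][X]) : ∃ C : ℝ, 0 ≤ C ∧ ∀ y : K, ∃ (d : 𝓞 K) (p : (𝓞 K)[X]), d ≠ 0 ∧
    p.map (algebraMap (𝓞 K) K) = Polynomial.C (algebraMap (𝓞 K) K d) * fib P y ∧
    sl (su (algebraMap (𝓞 K) K d)) ≤ C * (1 + logHeight₁ y) := by
  classical
  choose Ch hCh0 hCh using fun i => height_eval (P.coeff i)
  refine ⟨2 * totalWeight K * ∑ i ∈ P.support, Ch i, ?_, fun y => ?_⟩
  · have : 0 ≤ ∑ i ∈ P.support, Ch i := Finset.sum_nonneg fun i _ => hCh0 i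
    positivity
  obtain ⟨d, hd, h1, h2⟩ := den_fin P.support fun i => (P.coeff i).eval y
  have h3 : Polynomial.C (algebraMap (𝓞 K) K d) * fib P y ∈ Polynomial.lifts (algebraMap (𝓞 K) K) := by
    rw [Polynomial.lifts_iff_coeff_lifts]
    intro i
    rw [coeff_C_mul]
    unfold fib
    rw [coeff_map, coe_evalRingHom]
    by_cases hi : i ∈ P.support
    · obtain ⟨r, hr⟩ := h1 i hi
      exact ⟨r, hr⟩
    · rw [notMem_support_iff] at hi
      rw [hi, eval_zero, mul_zero]
      exact ⟨0, map_zero _⟩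
  obtain ⟨p, hp⟩ := (Polynomial.mem_lifts _).1 h3
  refine ⟨d, p, hd, hp, h2.trans ?_⟩
  have h5 : ∑ i ∈ P.support, logHeight₁ ((P.coeff i).eval y) ≤
      (∑ i ∈ P.support, Ch i) * (1 + logHeight₁ y) := by
    rw [Finset.sum_mul]
    exact Finset.sum_le_sum fun i _ => hCh i y
  calc 2 * (totalWeight K : ℝ) * ∑ i ∈ P.support, logHeight₁ ((P.coeff i).eval y) ≤
      2 * (totalWeight K : ℝ) * ((∑ i ∈ P.support, Ch i) * (1 + logHeight₁ y)) :=
        mul_le_mul_of_nonneg_left h5 (by positivity)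
    _ = _ := by ring

/-- Bezout identity -/
theorem bezout (F : K[X][X]) (hF : Irreducible F) (hd : 1 ≤ F.natDegree) :
    ∃ (a b : K[X][X]) (n : K[X]), n ≠ 0 ∧ a * F + b * derivative F = Polynomial.C n := by
  have hprim : F.IsPrimitive := hF.isPrimitive (by omega)
  have hirr : Irreducible (F.map (algebraMap K[X] (RatFunc K))) :=
    (hprim.irreducible_iff_irreducible_map_fraction_map (K := RatFunc K)).1 hF
  have hsep : (F.map (algebraMap K[X] (RatFunc K))).Separable := hirr.separable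
  obtain ⟨a, b, hab⟩ := hsep
  obtain ⟨m, hm0, hm⟩ := IsLocalization.integerNormalization_spec (nonZeroDivisors K[X]) a
  obtain ⟨n, hn0, hn⟩ := IsLocalization.integerNormalization_spec (nonZeroDivisors K[X]) b
  obtain ⟨A, hA⟩ : ∃ A, A = IsLocalization.integerNormalization (nonZeroDivisors K[X]) a := ⟨_, rfl⟩
  obtain ⟨B, hB⟩ : ∃ B, B = IsLocalization.integerNormalization (nonZeroDivisors K[X]) b := ⟨_, rfl⟩
  rw [← hA] at hm
  rw [← hB] at hn
  have hm' : A.map (algebraMap K[X] (RatFunc K)) = Polynomial.C (algebraMap K[X] (RatFunc K) m) * a := by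
    ext i
    rw [hm, coeff_smul, coeff_C_mul, Algebra.smul_def]
  have hn' : B.map (algebraMap K[X] (RatFunc K)) = Polynomial.C (algebraMap K[X] (RatFunc K) n) * b := by
    ext i
    rw [hn, coeff_smul, coeff_C_mul, Algebra.smul_def]
  refine ⟨Polynomial.C n * A, Polynomial.C m * B, m * n, mul_ne_zero (nonZeroDivisors.ne_zero hm0)
    (nonZeroDivisors.ne_zero hn0), ?_⟩
  apply Polynomial.map_injective (algebraMap K[X] (RatFunc K)) (FaithfulSMul.algebraMap_injective _ _)
  rw [Polynomial.map_add, Polynomial.map_mul, Polynomial.map_mul, Polynomial.map_mul,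
    Polynomial.map_mul, Polynomial.map_C, Polynomial.map_C, Polynomial.map_C, hm', hn',
    ← derivative_map, map_mul, C_mul]
  linear_combination (Polynomial.C (algebraMap K[X] (RatFunc K) m) *
    Polynomial.C (algebraMap K[X] (RatFunc K) n)) * hab

/-- separable reduction implies good reduction -/
theorem good_of_goodS {f : (𝓞 K)[X]} {v : Pr K} (hv : GoodS f v) (hd : 1 ≤ f.natDegree)
    (hv2 : (2 : 𝓞 K) ∉ v.asIdeal) : Good f v := by
  classical
  obtain ⟨⟨a, b, n, hab, hvn⟩, hvl⟩ := hv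
  have hdeg : (f.map (Ideal.Quotient.mk v.asIdeal)).natDegree = f.natDegree := by
    refine natDegree_map_of_leadingCoeff_ne_zero _ ?_
    rwa [Ne, Ideal.Quotient.eq_zero_iff_mem]
  refine ⟨?_, hdeg, ?_⟩
  · have h3 : (2 : kk v) ≠ 0 := by
      intro h
      apply hv2
      rw [← Ideal.Quotient.eq_zero_iff_mem, map_ofNat]
      exact h
    have h4 : ringChar (kk v) ≠ 2 := by
      intro h
      apply h3
      have := CharP.cast_eq_zero (kk v) (ringChar (kk v))
      rw [h] at this
      exact_mod_cast this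
    exact FiniteField.odd_card_of_char_ne_two h4
  · intro c h he
    have h5 : h ∣ Polynomial.C (Ideal.Quotient.mk v.asIdeal n) := by
      have h6 := congrArg (Polynomial.map (Ideal.Quotient.mk v.asIdeal)) hab
      rw [Polynomial.map_add, Polynomial.map_mul, Polynomial.map_mul, ← derivative_map,
        Polynomial.map_C, he] at h6
      rw [← h6]
      refine dvd_add ?_ ?_
      · exact Dvd.dvd.mul_left (Dvd.dvd.mul_left (dvd_pow_self h two_ne_zero) _) _
      · refine Dvd.dvd.mul_left ?_ _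
        rw [derivative_mul, derivative_C, zero_mul, zero_add, derivative_pow]
        refine Dvd.dvd.mul_left ?_ _
        simp only [Nat.add_one_sub_one, pow_one]
        exact Dvd.dvd.mul_right (Dvd.dvd.mul_left dvd_rfl _) _
    have h6 : IsUnit (Polynomial.C (Ideal.Quotient.mk v.asIdeal n) : (kk v)[X]) := by
      rw [isUnit_C, isUnit_iff_ne_zero, Ne, Ideal.Quotient.eq_zero_iff_mem]
      exact hvn
    have h7 := natDegree_eq_zero_of_isUnit (isUnit_of_dvd_unit h5 h6)
    have h8 : (f.map (Ideal.Quotient.mk v.asIdeal)).natDegree ≤ 0 := by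
      rw [he]
      refine natDegree_mul_le.trans ?_
      rw [natDegree_C, zero_add]
      refine natDegree_pow_le.trans ?_
      rw [h7, mul_zero]
    omega

theorem notMem_of_notMem_su {n : 𝓞 K} {z : K} (hz : z ≠ 0) (hn : algebraMap (𝓞 K) K n = z)
    {v : Pr K} (hv : v ∉ su z) : n ∉ v.asIdeal := by
  rw [mem_su hz, not_not, ← hn] at hv
  intro h
  have h1 : v.valuation K (algebraMap (𝓞 K) K n) < 1 :=
    (HeightOneSpectrum.valuation_lt_one_iff_mem v n).2 h
  rw [← fv_lt_one, hv] at h1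
  exact lt_irrefl _ h1

/-- **SU/R** -/
theorem stmR : StmR := by
  classical
  intro K _ _ F hF hd
  obtain ⟨A, B, R, hR, hAB⟩ := bezout F hF hd
  have hlc : F.leadingCoeff ≠ 0 := by
    rw [Ne, leadingCoeff_eq_zero]
    exact hF.ne_zero
  obtain ⟨C1, hC1, h1⟩ := den_poly F
  obtain ⟨C2, hC2, h2⟩ := den_poly A
  obtain ⟨C3, hC3, h3⟩ := den_poly B
  obtain ⟨C4, hC4, h4⟩ := height_eval R
  obtain ⟨C5, hC5, h5⟩ := height_eval F.leadingCoeff
  have h2h := zero_le_logHeight₁ (2 : K)
  refine ⟨R * F.leadingCoeff, C1 + C2 + C3 + 2 * C4 + 2 * C5 + 2 + 2 * logHeight₁ (2 : K),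
    mul_ne_zero hR hlc, by positivity, fun y hy => ?_⟩
  rw [eval_mul] at hy
  have hRy : R.eval y ≠ 0 := left_ne_zero_of_mul hy
  have hly : F.leadingCoeff.eval y ≠ 0 := right_ne_zero_of_mul hy
  obtain ⟨d1, f, hd1, hf, hs1⟩ := h1 y
  obtain ⟨d2, a, hd2, ha, hs2⟩ := h2 y
  obtain ⟨d3, b, hd3, hb, hs3⟩ := h3 y
  have hinj : Function.Injective (algebraMap (𝓞 K) K) := FaithfulSMul.algebraMap_injective _ _
  have hd1' : algebraMap (𝓞 K) K d1 ≠ 0 := by
    rw [Ne, FaithfulSMul.algebraMap_eq_zero_iff]; exact hd1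
  have hd2' : algebraMap (𝓞 K) K d2 ≠ 0 := by
    rw [Ne, FaithfulSMul.algebraMap_eq_zero_iff]; exact hd2
  have hd3' : algebraMap (𝓞 K) K d3 ≠ 0 := by
    rw [Ne, FaithfulSMul.algebraMap_eq_zero_iff]; exact hd3
  -- degree
  have hdegf : (fib F y).natDegree = F.natDegree := by
    unfold fib
    refine natDegree_map_of_leadingCoeff_ne_zero _ ?_
    rw [coe_evalRingHom]
    exact hly
  have hdeg : f.natDegree = F.natDegree := by
    rw [← natDegree_map_eq_of_injective hinj, hf, natDegree_C_mul hd1', hdegf]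
  have hlcf : algebraMap (𝓞 K) K f.leadingCoeff =
      algebraMap (𝓞 K) K d1 * F.leadingCoeff.eval y := by
    unfold leadingCoeff
    rw [← coeff_map, hf, coeff_C_mul, hdeg]
    unfold fib
    rw [coeff_map, coe_evalRingHom]
  -- the Bezout identity on the fibre
  have hBy : fib A y * fib F y + fib B y * derivative (fib F y) = Polynomial.C (R.eval y) := by
    have h := congrArg (fun P : K[X][X] => P.map (evalRingHom y)) hAB
    simp only [Polynomial.map_add, Polynomial.map_mul, Polynomial.map_C, coe_evalRingHom,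
      ← derivative_map] at h
    exact h
  obtain ⟨g, hg⟩ : ∃ g, g = Polynomial.C d3 * a * f + Polynomial.C d2 * b * derivative f := ⟨_, rfl⟩
  obtain ⟨κ, hκ⟩ : ∃ κ, κ = algebraMap (𝓞 K) K d1 * (algebraMap (𝓞 K) K d2 *
      algebraMap (𝓞 K) K d3) * R.eval y := ⟨_, rfl⟩
  have hgm : g.map (algebraMap (𝓞 K) K) = Polynomial.C κ := by
    rw [hg, Polynomial.map_add, Polynomial.map_mul, Polynomial.map_mul, Polynomial.map_mul,
      Polynomial.map_mul, Polynomial.map_C, Polynomial.map_C, ← derivative_map, hf, ha, hb, hκ,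
      derivative_C_mul, C_mul, C_mul, C_mul]
    linear_combination (Polynomial.C (algebraMap (𝓞 K) K d1) * (Polynomial.C (algebraMap (𝓞 K) K d2) *
      Polynomial.C (algebraMap (𝓞 K) K d3))) * hBy
  have hgC : g = Polynomial.C (g.coeff 0) := by
    apply Polynomial.map_injective _ hinj
    rw [hgm, Polynomial.map_C]
    congr 1
    have := congrArg (fun p : K[X] => p.coeff 0) hgm
    simp only [coeff_map, coeff_C_zero] at this
    exact this.symm
  have hg0 : algebraMap (𝓞 K) K (g.coeff 0) = κ := by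
    have := congrArg (fun p : K[X] => p.coeff 0) hgm
    simp only [coeff_map, coeff_C_zero] at this
    exact this
  have hκ0 : κ ≠ 0 := by
    rw [hκ]
    exact mul_ne_zero (mul_ne_zero hd1' (mul_ne_zero hd2' hd3')) hRy
  have hlcf0 : algebraMap (𝓞 K) K d1 * F.leadingCoeff.eval y ≠ 0 := mul_ne_zero hd1' hly
  refine ⟨f, algebraMap (𝓞 K) K d1, su y ∪ su (algebraMap (𝓞 K) K d1) ∪
    su (algebraMap (𝓞 K) K d2) ∪ su (algebraMap (𝓞 K) K d3) ∪ su (R.eval y) ∪
    su (F.leadingCoeff.eval y) ∪ su (2 : K), hd1', hf, hdeg, ?_, ?_⟩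
  · intro v hv
    simp only [Finset.mem_union, not_or] at hv
    obtain ⟨⟨⟨⟨⟨⟨v1, v2⟩, v3⟩, v4⟩, v5⟩, v6⟩, v7⟩ := hv
    have e1 : fv v (algebraMap (𝓞 K) K d1) = 1 := by rw [mem_su hd1', not_not] at v2; exact v2
    have e2 : fv v (algebraMap (𝓞 K) K d2) = 1 := by rw [mem_su hd2', not_not] at v3; exact v3
    have e3 : fv v (algebraMap (𝓞 K) K d3) = 1 := by rw [mem_su hd3', not_not] at v4; exact v4
    have e4 : fv v (R.eval y) = 1 := by rw [mem_su hRy, not_not] at v5; exact v5
    have e5 : fv v (F.leadingCoeff.eval y) = 1 := by rw [mem_su hly, not_not] at v6; exact v6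
    have hS : GoodS f v := by
      refine ⟨⟨Polynomial.C d3 * a, Polynomial.C d2 * b, g.coeff 0, ?_, ?_⟩, ?_⟩
      · rw [← hgC, hg]
      · refine notMem_of_notMem_su hκ0 hg0 ?_
        rw [mem_su hκ0, not_not, hκ, map_mul, map_mul, map_mul, e1, e2, e3, e4]
        norm_num
      · refine notMem_of_notMem_su hlcf0 hlcf ?_
        rw [mem_su hlcf0, not_not, map_mul, e1, e5]
        norm_num
    refine ⟨good_of_goodS hS (by omega) ?_, hS, fv_le_of_notMem v1, e1⟩
    exact notMem_of_notMem_su (two_ne_zero) (by rw [map_ofNat]) v7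
  · have hh := hr_aff y
    rw [hh]
    have b0 := zero_le_logHeight₁ y
    have b1 := sl_su_le y
    have b4 := sl_su_le (R.eval y)
    have b5 := sl_su_le (F.leadingCoeff.eval y)
    have b7 := sl_su_le (2 : K)
    have c4 := h4 y
    have c5 := h5 y
    have u1 := sl_union (su y) (su (algebraMap (𝓞 K) K d1))
    have u2 := sl_union (su y ∪ su (algebraMap (𝓞 K) K d1)) (su (algebraMap (𝓞 K) K d2))
    have u3 := sl_union (su y ∪ su (algebraMap (𝓞 K) K d1) ∪ su (algebraMap (𝓞 K) K d2))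
      (su (algebraMap (𝓞 K) K d3))
    have u4 := sl_union (su y ∪ su (algebraMap (𝓞 K) K d1) ∪ su (algebraMap (𝓞 K) K d2) ∪
      su (algebraMap (𝓞 K) K d3)) (su (R.eval y))
    have u5 := sl_union (su y ∪ su (algebraMap (𝓞 K) K d1) ∪ su (algebraMap (𝓞 K) K d2) ∪
      su (algebraMap (𝓞 K) K d3) ∪ su (R.eval y)) (su (F.leadingCoeff.eval y))
    have u6 := sl_union (su y ∪ su (algebraMap (𝓞 K) K d1) ∪ su (algebraMap (𝓞 K) K d2) ∪
      su (algebraMap (𝓞 K) K d3) ∪ su (R.eval y) ∪ su (F.leadingCoeff.eval y)) (su (2 : K))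
    have hfin : sl (su y ∪ su (algebraMap (𝓞 K) K d1) ∪ su (algebraMap (𝓞 K) K d2) ∪
      su (algebraMap (𝓞 K) K d3) ∪ su (R.eval y) ∪ su (F.leadingCoeff.eval y) ∪ su (2 : K)) ≤
      (C1 + C2 + C3 + 2 * C4 + 2 * C5 + 2 + 2 * logHeight₁ (2 : K)) * (1 + logHeight₁ y) := by
      nlinarith
    exact hfin

end Pool.Agent.N692.SUR
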