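import Pool.Agent.Y784.SH.Ext
import Pool.Agent.Y833.SH.Boundary

/-!
# Pushing a compact manifold with boundary into its interior (job SH/6)
-/

set_option autoImplicit false

open Set Filter Topology Metric Function
open scoped Manifold ContDiff NNReal

noncomputable section

namespace Pool.Agent.N692.SH

open Pool.Agent.Y522 Pool.Agent.Y784.SH Pool.Agent.Y833.SH

/-- the perturbation of the Euclidean space -/
theorem pert (m : ℕ) (p₀ : E (m + 1)) (R : ℝ) (hR : 0 < R) :
    ∃ (P : E (m + 1) → E (m + 1)) (ρ : E (m + 1) → ℝ), Continuous ρ ∧ Dif (m + 1) P ∧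
      ContDiff ℝ ∞ P ∧ (∀ p, ρ p = 0 → P p = p) ∧ (∀ p, 0 ≤ ρ p) ∧
      (∀ p, (P p) 0 = p 0 + ρ p) ∧ 0 < ρ p₀ ∧
      (∀ p ∈ closedBall p₀ (R / 4), P p ∈ ball p₀ (R / 2)) ∧
      (∀ p, p ∉ closedBall p₀ (R / 4) → ρ p = 0) := by
  set χ : ContDiffBump p₀ := ⟨R / 8, R / 4, by positivity, by linarith⟩ with hχ
  set e : E (m + 1) := EuclideanSpace.single 0 1 with he
  have hne : ‖e‖ = 1 := by simp [he]
  have hus : ContDiff ℝ ∞ (fun x => χ x • e) := χ.contDiff.smul contDiff_const
  have huc : HasCompactSupport (fun x => χ x • e) := χ.hasCompactSupport.smul_right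
  obtain ⟨K, hK⟩ := hus.lipschitzWith_of_hasCompactSupport huc (by simp)
  obtain ⟨c, hc0, hc1, hcK⟩ : ∃ c : ℝ, 0 < c ∧ c < R / 4 ∧ c * (K : ℝ) < 1 := by
    have hK0 : (0 : ℝ) ≤ K := K.2
    refine ⟨min (R / 8) (1 / (2 * (K + 1))), by positivity, ?_, ?_⟩
    · exact (min_le_left _ _).trans_lt (by linarith)
    · refine (mul_le_mul_of_nonneg_right (min_le_right _ _) hK0).trans_lt ?_
      rw [div_mul_eq_mul_div, one_mul, div_lt_one (by positivity)]
      linarith
  have hl : LipschitzWith (Real.toNNReal (c * K)) (fun x => c • (χ x • e)) := by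
    refine LipschitzWith.of_dist_le_mul fun x y => ?_
    have h1 : ((Real.toNNReal (c * K) : ℝ≥0) : ℝ) = c * K :=
      Real.coe_toNNReal _ (mul_nonneg hc0.le (NNReal.coe_nonneg K))
    rw [dist_smul₀, Real.norm_of_nonneg hc0.le, h1, mul_assoc]
    exact mul_le_mul_of_nonneg_left (hK.dist_le_mul x y) hc0.le
  have hlt : Real.toNNReal (c * K) < 1 := Real.toNNReal_lt_one.2 hcK
  have hcu : ContDiff ℝ ∞ (fun x => c • (χ x • e)) := hus.const_smul c
  have hval : ∀ p : E (m + 1), (p + c • (χ p • e)) 0 = p 0 + c * χ p := by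
    intro p
    simp [he]
  refine ⟨fun x => x + c • (χ x • e), fun x => c * χ x, continuous_const.mul χ.continuous, dif_of_lip hcu hlt hl,
    contDiff_id.add hcu, ?_, ?_, hval, ?_, ?_, ?_⟩
  · intro p hp
    have hp' : c * χ p = 0 := hp
    show p + c • (χ p • e) = p
    rw [smul_smul, hp', zero_smul, add_zero]
  · intro p
    exact mul_nonneg hc0.le χ.nonneg
  · show 0 < c * χ p₀
    rw [χ.one_of_mem_closedBall (mem_closedBall_self (by positivity))]
    linarith
  · intro p hp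
    rw [mem_closedBall] at hp
    rw [mem_ball]
    have h2 : dist (p + c • (χ p • e)) p ≤ c := by
      rw [dist_eq_norm, add_sub_cancel_left, norm_smul, norm_smul, hne, mul_one,
        Real.norm_of_nonneg hc0.le, Real.norm_of_nonneg χ.nonneg]
      exact mul_le_of_le_one_right hc0.le χ.le_one
    linarith [dist_triangle (p + c • (χ p • e)) p p₀]
  · intro p hp
    have h1 : χ p = 0 := χ.zero_of_le_dist (by
      rw [mem_closedBall, not_le] at hp
      exact hp.le)
    show c * χ p = 0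
    rw [h1, mul_zero]

section

variable {m : ℕ} {M : Type} [TopologicalSpace M] [T2Space M]
  [ChartedSpace (EuclideanHalfSpace (m + 1)) M] [IsManifold (𝓡∂ (m + 1)) ∞ M]

omit [T2Space M] in
theorem int_ext (x₀ : M) {y : M} (hy : y ∈ (extChartAt (𝓡∂ (m + 1)) x₀).source) :
    y ∈ (𝓡∂ (m + 1)).interior M ↔ 0 < (extChartAt (𝓡∂ (m + 1)) x₀ y) 0 := by
  have hy' : y ∈ (chartAt (EuclideanHalfSpace (m + 1)) x₀).source := by
    rwa [extChartAt_source] at hy
  rw [mem_int_iff (𝓡∂ (m + 1)) (chart_mem_atlas _ x₀) hy']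
  set e := chartAt (EuclideanHalfSpace (m + 1)) x₀ with he
  have h1 : interior (e.extend (𝓡∂ (m + 1))).target =
      (𝓡∂ (m + 1)).symm ⁻¹' e.target ∩ interior (range (𝓡∂ (m + 1))) := by
    rw [e.extend_target, interior_inter,
      ((𝓡∂ (m + 1)).continuous_symm.isOpen_preimage _ e.open_target).interior_eq]
  rw [h1, interior_range_modelWithCornersEuclideanHalfSpace]
  constructor
  · rintro ⟨-, h⟩
    exact h
  · intro h
    refine ⟨?_, h⟩
    have h2 := (e.extend (𝓡∂ (m + 1))).map_source (x := y) (by rw [e.extend_source]; exact hy')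
    rw [e.extend_target] at h2
    exact h2.1

/-- local step -/
theorem local_push (x₀ : M) :
    ∃ (V : Set M) (ψ : M → M), IsOpen V ∧ x₀ ∈ V ∧ Injective ψ ∧
      ContMDiff (𝓡∂ (m + 1)) (𝓡∂ (m + 1)) ∞ ψ ∧
      (∀ x, Bijective (mfderiv (𝓡∂ (m + 1)) (𝓡∂ (m + 1)) ψ x)) ∧
      (∀ x, ψ x = x ∨ ψ x ∈ (𝓡∂ (m + 1)).interior M) ∧
      (∀ x ∈ (𝓡∂ (m + 1)).interior M, ψ x ∈ (𝓡∂ (m + 1)).interior M) ∧
      ∀ x ∈ V, ψ x ∈ (𝓡∂ (m + 1)).interior M := by
  classical
  set I := 𝓡∂ (m + 1) with hI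
  set F := extChartAt I x₀ with hF
  set p₀ := F x₀ with hp₀
  have hrange : range I = {p : E (m + 1) | 0 ≤ p 0} :=
    range_modelWithCornersEuclideanHalfSpace (m + 1)
  obtain ⟨R, hR, hball⟩ : ∃ R > 0, closedBall p₀ R ∩ range I ⊆ F.target := by
    have h1 : F.target ∈ 𝓝[range I] p₀ := extChartAt_target_mem_nhdsWithin x₀
    obtain ⟨R, hR, h2⟩ := Metric.mem_nhdsWithin_iff.1 h1
    refine ⟨R / 2, by positivity, fun y hy => h2 ⟨?_, hy.2⟩⟩
    have := mem_closedBall.1 hy.1
    rw [mem_ball]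
    linarith
  obtain ⟨P, ρ, hρc, hPd, hPs, hP0, hρ0, hPv, hρp, hPb, hρz⟩ := pert m p₀ R hR
  have htr : F.target ⊆ range I := extChartAt_target_subset_range x₀
  have hPr : ∀ p ∈ range I, P p ∈ range I := by
    intro p hp
    rw [hrange] at hp ⊢
    have hp' : 0 ≤ p 0 := hp
    show 0 ≤ (P p) 0
    rw [hPv]
    linarith [hρ0 p]
  have hPt : ∀ p ∈ F.target, P p ∈ F.target := by
    intro p hp
    by_cases h : p ∈ closedBall p₀ (R / 4)
    · exact hball ⟨ball_subset_closedBall (ball_subset_ball (by linarith) (hPb p h)),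
        hPr p (htr hp)⟩
    · rw [hP0 p (hρz p h)]
      exact hp
  set ψ : M → M := fun x => if x ∈ F.source then F.symm (P (F x)) else x with hψ
  have hψ1 : ∀ x ∈ F.source, ψ x = F.symm (P (F x)) := fun x hx => if_pos hx
  have hψ2 : ∀ x, x ∉ F.source → ψ x = x := fun x hx => if_neg hx
  have hFt : ∀ x ∈ F.source, P (F x) ∈ F.target := fun x hx => hPt _ (F.map_source hx)
  have hψs : ∀ x ∈ F.source, ψ x ∈ F.source := by
    intro x hx
    rw [hψ1 x hx]
    exact F.map_target (hFt x hx)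
  have hFψ : ∀ x ∈ F.source, F (ψ x) = P (F x) := by
    intro x hx
    rw [hψ1 x hx]
    exact F.right_inv (hFt x hx)
  have hψρ : ∀ x ∈ F.source, ρ (F x) = 0 → ψ x = x := by
    intro x hx h
    rw [hψ1 x hx, hP0 _ h]
    exact F.left_inv hx
  have hso : IsOpen F.source := isOpen_extChartAt_source x₀
  -- the compact set
  set K : Set M := F.symm '' (closedBall p₀ (R / 4) ∩ range I) with hK
  have hKc : IsClosed K := by
    refine IsCompact.isClosed ?_
    refine IsCompact.image_of_continuousOn ?_ ?_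
    · exact (isCompact_closedBall p₀ (R / 4)).inter_right I.isClosed_range
    · refine (continuousOn_extChartAt_symm x₀).mono ?_
      exact (inter_subset_inter_left _ (closedBall_subset_closedBall (by linarith))).trans hball
  have hψK : ∀ x, x ∉ K → ψ x = x := by
    intro x hx
    by_cases hxs : x ∈ F.source
    · refine hψρ x hxs (hρz _ fun h => hx ⟨F x, ⟨h, htr (F.map_source hxs)⟩, F.left_inv hxs⟩)
    · exact hψ2 x hxs
  have hKs : K ⊆ F.source := by
    rintro _ ⟨p, hp, rfl⟩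
    refine F.map_target (hball ⟨closedBall_subset_closedBall (by linarith) hp.1, hp.2⟩)
  have hev : ∀ x, x ∉ F.source → ψ =ᶠ[𝓝 x] fun y => y := by
    intro x hx
    filter_upwards [hKc.isOpen_compl.mem_nhds (fun h => hx (hKs h))] with y hy
    exact hψK y hy
  -- interior
  have hint : ∀ x ∈ F.source, (ψ x ∈ I.interior M ↔ 0 < (F x) 0 + ρ (F x)) := by
    intro x hx
    rw [int_ext x₀ (hψs x hx), ← hF, hFψ x hx, hPv]
  have hF0 : ∀ x ∈ F.source, 0 ≤ (F x) 0 := by
    intro x hx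
    have := htr (F.map_source hx)
    rw [hrange] at this
    exact this
  refine ⟨F.source ∩ F ⁻¹' {p | 0 < ρ p}, ψ, ?_, ?_, ?_, ?_, ?_, ?_, ?_, ?_⟩
  · exact (continuousOn_extChartAt x₀).isOpen_inter_preimage hso
      (isOpen_lt continuous_const hρc)
  · exact ⟨mem_extChartAt_source x₀, hρp⟩
  · intro x y hxy
    by_cases hx : x ∈ F.source
    · by_cases hy : y ∈ F.source
      · rw [hψ1 x hx, hψ1 y hy] at hxy
        have h1 := F.symm.injOn (hFt x hx) (hFt y hy) hxy
        exact F.injOn hx hy (hPd.1.1 h1)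
      · exfalso
        apply hy
        rw [← hψ2 y hy, ← hxy]
        exact hψs x hx
    · by_cases hy : y ∈ F.source
      · exfalso
        apply hx
        rw [← hψ2 x hx, hxy]
        exact hψs y hy
      · rwa [hψ2 x hx, hψ2 y hy] at hxy
  · intro x
    by_cases hx : x ∈ F.source
    · have h1 : ContMDiffOn I 𝓘(ℝ, E (m + 1)) ∞ (fun y => P (F y)) F.source := by
        have h2 : ContMDiffOn I 𝓘(ℝ, E (m + 1)) ∞ F F.source := by
          rw [hF, extChartAt_source]
          exact contMDiffOn_extChartAt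
        exact hPs.contMDiff.comp_contMDiffOn h2
      have h3 : ContMDiffOn I I ∞ (F.symm ∘ fun y => P (F y)) F.source :=
        (contMDiffOn_extChartAt_symm x₀).comp h1 fun y hy => hFt y hy
      have h4 := (h3 x hx).contMDiffAt (hso.mem_nhds hx)
      refine h4.congr_of_eventuallyEq ?_
      filter_upwards [hso.mem_nhds hx] with y hy
      exact hψ1 y hy
    · exact contMDiffAt_id.congr_of_eventuallyEq (hev x hx)
  · intro x
    by_cases hx : x ∈ F.source
    · have h1 : HasMFDerivAt I 𝓘(ℝ, E (m + 1)) F x (mfderiv I 𝓘(ℝ, E (m + 1)) F x) :=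
        (mdifferentiableAt_extChartAt (by rwa [hF, extChartAt_source] at hx)).hasMFDerivAt
      have h2 : HasMFDerivAt 𝓘(ℝ, E (m + 1)) 𝓘(ℝ, E (m + 1)) P (F x) (fderiv ℝ P (F x)) :=
        (hPs.differentiable (by simp) (F x)).hasFDerivAt.hasMFDerivAt
      have h3 : HasMFDerivWithinAt 𝓘(ℝ, E (m + 1)) I F.symm (range I) (P (F x))
          (mfderivWithin 𝓘(ℝ, E (m + 1)) I F.symm (range I) (P (F x))) :=
        (mdifferentiableWithinAt_extChartAt_symm (hFt x hx)).hasMFDerivWithinAt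
      have h4 := HasMFDerivAt.comp x h2 h1
      have h5 := HasMFDerivWithinAt.comp x (f := P ∘ F) (u := range I) (s := F.source) h3
        (h4.hasMFDerivWithinAt (s := F.source)) (fun y hy => htr (hFt y hy))
      have h6 := h5.hasMFDerivAt (hso.mem_nhds hx)
      have h7 : ψ =ᶠ[𝓝 x] (F.symm ∘ P ∘ F) := by
        filter_upwards [hso.mem_nhds hx] with y hy
        exact hψ1 y hy
      have h8 := (h6.congr_of_eventuallyEq h7).mfderiv
      rw [h8]
      have b1 : Bijective (mfderiv I 𝓘(ℝ, E (m + 1)) F x) :=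
        (isInvertible_mfderiv_extChartAt hx).bijective
      have b3 : Bijective (mfderivWithin 𝓘(ℝ, E (m + 1)) I F.symm (range I) (P (F x))) :=
        (isInvertible_mfderivWithin_extChartAt_symm (hFt x hx)).bijective
      have b2 : Bijective (fderiv ℝ P (F x)) := by
        have hld : LD (m + 1) P (F x) := hPd.2 (F x)
        have hb := (hld.mfderivToContinuousLinearEquiv (by simp)).bijective
        have he : ⇑(hld.mfderivToContinuousLinearEquiv (by simp)) = ⇑(fderiv ℝ P (F x)) := by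
          have h9 := hld.mfderivToContinuousLinearEquiv_coe (by simp)
          have h10 : mfderiv (𝓡 (m + 1)) (𝓡 (m + 1)) P (F x) = fderiv ℝ P (F x) :=
            mfderiv_eq_fderiv
          rw [← h10, ← h9]
          rfl
        rw [he] at hb
        exact hb
      exact b3.comp (b2.comp b1)
    · rw [(hev x hx).mfderiv_eq]
      rw [show (fun y : M => y) = id from rfl, mfderiv_id]
      exact bijective_id
  · intro x
    by_cases hx : x ∈ F.source
    · by_cases h : ρ (F x) = 0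
      · exact Or.inl (hψρ x hx h)
      · right
        rw [hint x hx]
        have := hF0 x hx
        have h2 := lt_of_le_of_ne (hρ0 (F x)) (Ne.symm h)
        linarith
    · exact Or.inl (hψ2 x hx)
  · intro x hxi
    by_cases hx : x ∈ F.source
    · rw [hint x hx]
      have := (int_ext x₀ hx).1 hxi
      have h2 := hρ0 (F x)
      rw [← hF] at this
      linarith
    · rw [hψ2 x hx]
      exact hxi
  · rintro x ⟨hx, hx2⟩
    rw [hint x hx]
    have := hF0 x hx
    have h2 : 0 < ρ (F x) := hx2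
    linarith

end

theorem push_in (m : ℕ) (M : Type) [TopologicalSpace M] [T2Space M] [CompactSpace M]
    [ChartedSpace (EuclideanHalfSpace (m + 1)) M] [IsManifold (𝓡∂ (m + 1)) ∞ M] :
    ∃ ψ : M → M, Function.Injective ψ ∧ ContMDiff (𝓡∂ (m + 1)) (𝓡∂ (m + 1)) ∞ ψ ∧
      (∀ x, Function.Bijective (mfderiv (𝓡∂ (m + 1)) (𝓡∂ (m + 1)) ψ x)) ∧
      ∀ x, ψ x ∈ (𝓡∂ (m + 1)).interior M := by
  suffices h : ∀ s : Set M, IsCompact s → ∃ ψ : M → M, Function.Injective ψ ∧
      ContMDiff (𝓡∂ (m + 1)) (𝓡∂ (m + 1)) ∞ ψ ∧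
      (∀ x, Function.Bijective (mfderiv (𝓡∂ (m + 1)) (𝓡∂ (m + 1)) ψ x)) ∧
      (∀ x, ψ x = x ∨ ψ x ∈ (𝓡∂ (m + 1)).interior M) ∧
      (∀ x ∈ (𝓡∂ (m + 1)).interior M, ψ x ∈ (𝓡∂ (m + 1)).interior M) ∧
      ∀ x ∈ s, ψ x ∈ (𝓡∂ (m + 1)).interior M by
    obtain ⟨ψ, h1, h2, h3, -, -, h6⟩ := h univ isCompact_univ
    exact ⟨ψ, h1, h2, h3, fun x => h6 x (mem_univ x)⟩
  intro s hs
  refine hs.induction_on ?_ ?_ ?_ ?_
  · refine ⟨id, injective_id, contMDiff_id, fun x => ?_, fun x => Or.inl rfl, fun x hx => hx,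
      fun x hx => hx.elim⟩
    rw [mfderiv_id]
    exact bijective_id
  · rintro s t hst ⟨ψ, h1, h2, h3, h4, h5, h6⟩
    exact ⟨ψ, h1, h2, h3, h4, h5, fun x hx => h6 x (hst hx)⟩
  · rintro s t ⟨ψ, h1, h2, h3, h4, h5, h6⟩ ⟨φ, g1, g2, g3, g4, g5, g6⟩
    refine ⟨φ ∘ ψ, g1.comp h1, g2.comp h2, fun x => ?_, fun x => ?_, fun x hx => g5 _ (h5 x hx),
      fun x hx => ?_⟩
    · rw [mfderiv_comp x (g2.mdifferentiable (by simp) (ψ x)) (h2.mdifferentiable (by simp) x)]
      exact (g3 (ψ x)).comp (h3 x)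
    · rcases h4 x with h | h
      · have := g4 (ψ x)
        rw [h] at this
        show φ (ψ x) = x ∨ φ (ψ x) ∈ _
        rw [h]
        exact this
      · exact Or.inr (g5 _ h)
    · rcases hx with hx | hx
      · exact g5 _ (h6 x hx)
      · rcases h4 x with h | h
        · show φ (ψ x) ∈ _
          rw [h]
          exact g6 x hx
        · exact g5 _ h
  · intro x _
    obtain ⟨V, ψ, h0, h00, h1, h2, h3, h4, h5, h6⟩ := local_push (m := m) x
    exact ⟨V, mem_nhdsWithin_of_mem_nhds (h0.mem_nhds h00), ψ, h1, h2, h3, h4, h5, h6⟩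

end Pool.Agent.N692.SH
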