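import Pool.Agent.N576.MX3.D

/-!
# Project MX3: few rational numbers of small height in a group of rank two (leaf MX3/RANK2, helper692)
-/

set_option autoImplicit false

namespace Pool.Agent.N692.MX3R

open Finset

/-- a positive rational number without prime factors is one -/
theorem eq_one (t : ℚ) (ht : 0 < t) (h : ∀ p : ℕ, p.Prime → padicValRat p t = 0) : t = 1 := by
  have hnum0 : 0 < t.num := Rat.num_pos.2 ht
  have hcop := t.reduced
  have hn : t.num.natAbs = 1 := by
    by_contra hc
    obtain ⟨p, hp, hpd⟩ := Nat.exists_prime_and_dvd hc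
    haveI := Fact.mk hp
    have h1 := h p hp
    rw [padicValRat_def] at h1
    have h2 : padicValNat p t.den = 0 := by
      apply padicValNat.eq_zero_of_not_dvd
      intro h3
      have := Nat.dvd_gcd hpd h3
      rw [Nat.Coprime.gcd_eq_one hcop] at this
      exact hp.one_lt.ne' (Nat.dvd_one.1 this)
    have h4 : 1 ≤ padicValNat p t.num.natAbs := one_le_padicValNat_of_dvd (by omega) hpd
    unfold padicValInt at h1
    rw [h2] at h1
    omega
  have hd : t.den = 1 := by
    by_contra hc
    obtain ⟨p, hp, hpd⟩ := Nat.exists_prime_and_dvd hc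
    haveI := Fact.mk hp
    have h1 := h p hp
    rw [padicValRat_def] at h1
    unfold padicValInt at h1
    rw [hn, padicValNat_one_right] at h1
    have h4 : 1 ≤ padicValNat p t.den := one_le_padicValNat_of_dvd t.den_nz hpd
    omega
  have h5 : t.num = 1 := by omega
  rw [← Rat.num_div_den t, h5, hd]
  norm_num

theorem eq_of (z z' : ℚ) (hz : 0 < z) (hz' : 0 < z')
    (h : ∀ p : ℕ, p.Prime → padicValRat p z = padicValRat p z') : z = z' := by
  have h1 : z / z' = 1 := by
    apply eq_one _ (div_pos hz hz')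
    intro p hp
    haveI := Fact.mk hp
    rw [padicValRat.div hz.ne' hz'.ne', h p hp, sub_self]
  rwa [div_eq_one_iff_eq hz'.ne'] at h1

theorem rel (x y z : ℚ) (hx : 0 < x) (hy : 0 < y) (hz : 0 < z) (a b c : ℤ)
    (h : a * Real.log x + b * Real.log y + c * Real.log z = 0) (p : ℕ) (hp : p.Prime) :
    a * padicValRat p x + b * padicValRat p y + c * padicValRat p z = 0 := by
  haveI := Fact.mk hp
  have hxR : (0 : ℝ) < x := by exact_mod_cast hx
  have hyR : (0 : ℝ) < y := by exact_mod_cast hy
  have hzR : (0 : ℝ) < z := by exact_mod_cast hz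
  have h1 : Real.log ((x : ℝ) ^ a * (y : ℝ) ^ b * (z : ℝ) ^ c) = 0 := by
    rw [Real.log_mul (by positivity) (by positivity), Real.log_mul (by positivity) (by positivity),
      Real.log_zpow, Real.log_zpow, Real.log_zpow]
    exact h
  have h2 : (x : ℝ) ^ a * (y : ℝ) ^ b * (z : ℝ) ^ c = 1 :=
    Real.eq_one_of_pos_of_log_eq_zero (by positivity) h1
  have h3 : x ^ a * y ^ b * z ^ c = 1 := by exact_mod_cast h2
  have h4 := congrArg (padicValRat p) h3
  rw [padicValRat.mul (mul_ne_zero (zpow_ne_zero _ hx.ne') (zpow_ne_zero _ hy.ne'))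
    (zpow_ne_zero _ hz.ne'), padicValRat.mul (zpow_ne_zero _ hx.ne') (zpow_ne_zero _ hy.ne'),
    padicValRat.zpow, padicValRat.zpow, padicValRat.zpow, padicValRat.one] at h4
  exact h4

theorem bound (H : ℕ) (z : ℚ) (hz : 0 < z) (h1 : z.num ≤ H) (h2 : z.den ≤ H) (p : ℕ)
    (hp : p.Prime) : padicValRat p z ∈ Finset.Icc (-(Nat.log 2 H : ℤ)) (Nat.log 2 H : ℤ) := by
  have hnum0 : 0 < z.num := Rat.num_pos.2 hz
  have key : ∀ n : ℕ, n ≤ H → padicValNat p n ≤ Nat.log 2 H := by
    intro n hn
    calc padicValNat p n ≤ Nat.log p n := padicValNat_le_nat_log n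
      _ ≤ Nat.log 2 n := Nat.log_anti_left (by norm_num) hp.two_le
      _ ≤ Nat.log 2 H := Nat.log_mono_right hn
  have k1 := key z.num.natAbs (by omega)
  have k2 := key z.den h2
  rw [padicValRat_def, Finset.mem_Icc]
  unfold padicValInt
  constructor <;> omega

/-- two coordinates which separate the elements of the span -/
theorem sep (v w : ℕ → ℤ) (hv : ∃ p : ℕ, p.Prime ∧ v p ≠ 0) :
    ∃ p p' : ℕ, p.Prime ∧ p'.Prime ∧ ∀ α β : ℤ, α * v p + β * w p = 0 → α * v p' + β * w p' = 0 →
      ∀ q : ℕ, q.Prime → α * v q + β * w q = 0 := by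
  by_cases h : ∃ p p' : ℕ, p.Prime ∧ p'.Prime ∧ v p * w p' - w p * v p' ≠ 0
  · obtain ⟨p, p', hp, hp', hD⟩ := h
    refine ⟨p, p', hp, hp', fun α β h1 h2 q _ => ?_⟩
    have ha : α = 0 := by
      have : (v p * w p' - w p * v p') * α = 0 := by linear_combination w p' * h1 - w p * h2
      rcases mul_eq_zero.1 this with h3 | h3
      · exact absurd h3 hD
      · exact h3
    have hb : β = 0 := by
      have : (v p * w p' - w p * v p') * β = 0 := by linear_combination v p * h2 - v p' * h1
      rcases mul_eq_zero.1 this with h3 | h3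
      · exact absurd h3 hD
      · exact h3
    rw [ha, hb]; ring
  · push Not at h
    obtain ⟨p, hp, hvp⟩ := hv
    refine ⟨p, p, hp, hp, fun α β h1 _ q hq => ?_⟩
    have h2 := h p q hp hq
    have : v p * (α * v q + β * w q) = 0 := by linear_combination v q * h1 + β * h2
    rcases mul_eq_zero.1 this with h3 | h3
    · exact absurd h3 hvp
    · exact h3

theorem rank2 : Pool.Agent.N576.MX3.RANK2 := by
  intro H R hH hR hrel
  classical
  by_cases hc : R.card ≤ 2
  · have h1 : (R.card : ℝ) ≤ 2 := by exact_mod_cast hc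
    have h2 : (0 : ℝ) ≤ (2 * Nat.log 2 H + 1) ^ 2 := by positivity
    linarith
  push Not at hc
  -- choose x ≠ 1 and y
  have hex : ∃ x ∈ R, x ≠ 1 := by
    by_contra hcon
    push Not at hcon
    have : R ⊆ {1} := fun r hr => Finset.mem_singleton.2 (hcon r hr)
    have := Finset.card_le_card this
    rw [Finset.card_singleton] at this
    omega
  obtain ⟨x, hx, hx1⟩ := hex
  have hey : ∃ y ∈ R, x ≠ y := by
    by_contra hcon
    push Not at hcon
    have : R ⊆ {x} := fun r hr => Finset.mem_singleton.2 (hcon r hr).symm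
    have := Finset.card_le_card this
    rw [Finset.card_singleton] at this
    omega
  obtain ⟨y, hy, hxy⟩ := hey
  have hx0 := (hR x hx).1
  have hy0 := (hR y hy).1
  have hvx : ∃ p : ℕ, p.Prime ∧ padicValRat p x ≠ 0 := by
    by_contra hcon
    push Not at hcon
    exact hx1 (eq_one x hx0 hcon)
  obtain ⟨p, p', hp, hp', hsep⟩ := sep (fun p => padicValRat p x) (fun p => padicValRat p y) hvx
  set S := (R.erase x).erase y with hS
  have hScard : R.card = S.card + 2 := by
    rw [hS, Finset.card_erase_of_mem (Finset.mem_erase.2 ⟨hxy.symm, hy⟩), Finset.card_erase_of_mem hx]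
    omega
  have hSle : S.card ≤ ((Finset.Icc (-(Nat.log 2 H : ℤ)) (Nat.log 2 H : ℤ)) ×ˢ
      (Finset.Icc (-(Nat.log 2 H : ℤ)) (Nat.log 2 H : ℤ))).card := by
    apply Finset.card_le_card_of_injOn (fun z => (padicValRat p z, padicValRat p' z))
    · intro z hz
      have hzR : z ∈ R := Finset.mem_of_mem_erase (Finset.mem_of_mem_erase hz)
      obtain ⟨h1, h2, h3⟩ := hR z hzR
      exact Finset.mem_coe.2 (Finset.mem_product.2 ⟨bound H z h1 h2 h3 p hp, bound H z h1 h2 h3 p' hp'⟩)
    · intro z hz z' hz' heq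
      simp only [Prod.mk.injEq] at heq
      obtain ⟨he1, he2⟩ := heq
      have hzm := Finset.mem_erase.1 (Finset.mem_coe.1 hz)
      have hzm2 := Finset.mem_erase.1 hzm.2
      have hzm' := Finset.mem_erase.1 (Finset.mem_coe.1 hz')
      have hzm2' := Finset.mem_erase.1 hzm'.2
      have hz0 := (hR z hzm2.2).1
      have hz0' := (hR z' hzm2'.2).1
      obtain ⟨a, b, c, hc0, hr⟩ := hrel x hx y hy z hzm2.2 hxy hzm2.1 hzm.1
      obtain ⟨a', b', c', hc0', hr'⟩ := hrel x hx y hy z' hzm2'.2 hxy hzm2'.1 hzm'.1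
      have key : ∀ q : ℕ, q.Prime → c * c' * (padicValRat q z - padicValRat q z') =
          (a' * c - a * c') * padicValRat q x + (b' * c - b * c') * padicValRat q y := by
        intro q hq
        have r1 := rel x y z hx0 hy0 hz0 a b c hr q hq
        have r2 := rel x y z' hx0 hy0 hz0' a' b' c' hr' q hq
        linear_combination c' * r1 - c * r2
      have k1 := key p hp
      have k2 := key p' hp'
      rw [he1, sub_self, mul_zero] at k1
      rw [he2, sub_self, mul_zero] at k2
      have k3 := hsep (a' * c - a * c') (b' * c - b * c') k1.symm k2.symm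
      apply eq_of z z' hz0 hz0'
      intro q hq
      have k4 := key q hq
      rw [k3 q hq] at k4
      rcases mul_eq_zero.1 k4 with h | h
      · rcases mul_eq_zero.1 h with h | h
        · exact absurd h hc0
        · exact absurd h hc0'
      · exact sub_eq_zero.1 h
  rw [Finset.card_product, Int.card_Icc] at hSle
  have e : ((Nat.log 2 H : ℤ) + 1 - -(Nat.log 2 H : ℤ)).toNat = 2 * Nat.log 2 H + 1 := by omega
  rw [e] at hSle
  have h9 : R.card ≤ (2 * Nat.log 2 H + 1) ^ 2 + 2 := by
    rw [hScard, sq]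
    omega
  exact_mod_cast h9

end Pool.Agent.N692.MX3R
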