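import Pool.Agent.N646.RO.Stm

/-!
# RQ/WB: moments in longer windows

Project RQ (helper646); this file by helper692.
-/

set_option autoImplicit false

namespace Pool.Agent.N692.RQWB

open Finset Filter Topology Pool.Agent.N646.RO

open Classical in
/-- the number of rough integers in the short interval from `m` on -/
noncomputable def av (δ : ℝ) (N : ℕ) (m : ℕ) : ℕ :=
  ((range (⌊Real.log N⌋₊ + 1)).filter (fun v : ℕ => Rgh δ N (m + v))).card

open Classical in
/-- the number of rough multiples in the long interval -/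
noncomputable def Av (δ : ℝ) (N M T : ℕ) (n : ℕ) : ℕ :=
  ((range T).filter (fun t : ℕ => Rgh δ N (n + M * t))).card

/-- decomposition into windows -/
theorem split (δ : ℝ) (N M T b n : ℕ) (hM : 1 ≤ M) (hb : 1 ≤ b) (hMb : M * b ≤ ⌊Real.log N⌋₊)
    (hT : 1 ≤ T) :
    Av δ N M T n ≤ ∑ j ∈ range ((T - 1) / b + 1), av δ N (n + M * (j * b)) := by
  classical
  unfold Av
  rw [Finset.card_eq_sum_card_fiberwise (f := fun t => t / b) (t := range ((T - 1) / b + 1))]
  · refine Finset.sum_le_sum fun j _ => ?_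
    unfold av
    refine Finset.card_le_card_of_injOn (fun t => M * (t % b)) ?_ ?_
    · intro t ht
      obtain ⟨ht1, ht2⟩ := Finset.mem_filter.1 ht
      obtain ⟨_, ht3⟩ := Finset.mem_filter.1 ht1
      have hmod := Nat.mod_lt t hb
      have hdm := Nat.div_add_mod t b
      rw [ht2] at hdm
      refine Finset.mem_filter.2 ⟨Finset.mem_range.2 ?_, ?_⟩
      · have : M * (t % b) ≤ M * b := Nat.mul_le_mul_left _ hmod.le
        show M * (t % b) < _
        omega
      · have e : ((n + M * (j * b) : ℕ) : ℤ) + ((M * (t % b) : ℕ) : ℤ) = (n : ℤ) + M * (t : ℤ) := by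
          have h1 : t = b * j + t % b := hdm.symm
          have h2 : n + M * (j * b) + M * (t % b) = n + M * t := by
            conv_rhs => rw [h1]
            ring
          exact_mod_cast h2
        show Rgh δ N (((n + M * (j * b) : ℕ) : ℤ) + ((M * (t % b) : ℕ) : ℤ))
        rw [e]
        exact ht3
    · intro t ht t' ht' heq
      have h1 := (Finset.mem_filter.1 (Finset.mem_coe.1 ht)).2
      have h2 := (Finset.mem_filter.1 (Finset.mem_coe.1 ht')).2
      have h3 : M * (t % b) = M * (t' % b) := heq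
      have h4 := Nat.eq_of_mul_eq_mul_left hM h3
      rw [← Nat.div_add_mod t b, ← Nat.div_add_mod t' b, h1, h2, h4]
  · intro t ht
    have h1 := Finset.mem_range.1 (Finset.mem_filter.1 ht).1
    rw [Finset.mem_coe, Finset.mem_range]
    have h2 : t / b ≤ (T - 1) / b := Nat.div_le_div_right (by omega)
    show t / b < _
    omega

/-- the shifted sum -/
theorem shift_le (g : ℕ → ℝ) (hg : ∀ m, 0 ≤ g m) (N k : ℕ) (hk : k ≤ N) :
    ∑ n ∈ Icc (N / 18) (2 * N), g (n + k) ≤ ∑ m ∈ Icc (N / 20) (4 * N), g m := by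
  have h1 : ∑ n ∈ Icc (N / 18) (2 * N), g (n + k) =
      ∑ m ∈ (Icc (N / 18) (2 * N)).map (addRightEmbedding k), g m := by
    rw [Finset.sum_map]
    rfl
  rw [h1, Finset.map_add_right_Icc]
  refine Finset.sum_le_sum_of_subset_of_nonneg ?_ fun m _ _ => hg m
  refine Finset.Icc_subset_Icc ?_ ?_
  · have : N / 20 ≤ N / 18 := Nat.div_le_div_left (by norm_num) (by norm_num)
    omega
  · omega

theorem main (h : S_MB) : S_WB := by
  classical
  intro δ lam M r hδ hlam hM
  obtain ⟨C, hC, hev⟩ := h δ r hδ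
  have hM' : (1 : ℝ) ≤ M := by exact_mod_cast hM
  refine ⟨3 + C * (2 * M + 1 / lam) ^ r, by positivity, ?_⟩
  have hlog : ∀ᶠ N : ℕ in atTop, (2 * M + 2 : ℝ) ≤ Real.log N :=
    (Real.tendsto_log_atTop.comp tendsto_natCast_atTop_atTop).eventually_ge_atTop _
  filter_upwards [hev, hlog, eventually_ge_atTop 1] with N h1 h2 h3 T hT hMT
  have hN : (1 : ℝ) ≤ N := by exact_mod_cast h3
  have hL0 : 0 < Real.log N := by linarith
  have hT1 : 1 ≤ T := by
    have h4 : (0 : ℝ) < T := lt_of_lt_of_le (mul_pos hlam hL0) hT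
    exact_mod_cast h4
  have hTr : (1 : ℝ) ≤ T := by exact_mod_cast hT1
  set L := ⌊Real.log N⌋₊ with hL
  set b := L / M with hb
  have hLr : Real.log N < L + 1 := Nat.lt_floor_add_one _
  have hbr : (L : ℝ) < M * (b + 1) := by
    have h4 : L < M * (b + 1) := by
      rw [mul_comm]
      exact Nat.lt_mul_of_div_lt (Nat.lt_succ_self _) hM
    exact_mod_cast h4
  have hbl : Real.log N ≤ 2 * M * b := by nlinarith
  have hb1 : 1 ≤ b := by
    have h4 : (0 : ℝ) < 2 * M * b := lt_of_lt_of_le hL0 hbl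
    have h5 : (b : ℝ) ≠ 0 := by
      intro h0
      rw [h0, mul_zero] at h4
      exact lt_irrefl _ h4
    have h6 : b ≠ 0 := by exact_mod_cast h5
    exact Nat.one_le_iff_ne_zero.2 h6
  have hMb : M * b ≤ L := Nat.mul_div_le L M
  set J := (T - 1) / b + 1 with hJ
  have hJr : (J : ℝ) ≤ (2 * M + 1 / lam) * (T / Real.log N) := by
    have h4 : (((T - 1) / b : ℕ) : ℝ) ≤ T / b := by
      refine (Nat.cast_div_le).trans ?_
      have h5 : ((T - 1 : ℕ) : ℝ) ≤ T := by exact_mod_cast Nat.sub_le T 1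
      gcongr
    have hbr0 : (0 : ℝ) < b := by exact_mod_cast hb1
    have h5 : (T : ℝ) / b ≤ 2 * M * (T / Real.log N) := by
      rw [div_le_iff₀ hbr0]
      have h6 : 2 * M * (T / Real.log N) * b = (2 * M * b) * T / Real.log N := by ring
      rw [h6, le_div_iff₀ hL0]
      nlinarith
    have h6 : (1 : ℝ) ≤ 1 / lam * (T / Real.log N) := by
      rw [one_div_mul_eq_div, le_div_iff₀ hlam, one_mul, le_div_iff₀ hL0]
      exact hT
    rw [hJ]
    push_cast
    linarith
  have hj : ∀ j ∈ range J, M * (j * b) ≤ N := by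
    intro j hj
    have h4 : j ≤ (T - 1) / b := by
      have := Finset.mem_range.1 hj
      omega
    have h5 : j * b ≤ T - 1 := (Nat.mul_le_mul_right b h4).trans (Nat.div_mul_le_self _ _)
    exact (Nat.mul_le_mul_left M (h5.trans (Nat.sub_le _ _))).trans hMT
  show ∑ n ∈ Icc (N / 18) (2 * N), ((Av δ N M T n : ℕ) : ℝ) ^ r ≤ _
  have h1' : ∑ m ∈ Icc (N / 20) (4 * N), ((av δ N m : ℕ) : ℝ) ^ r ≤ C * N := h1
  rcases Nat.eq_zero_or_pos r with hr | hr
  · subst hr
    simp only [pow_zero, mul_one, Finset.sum_const, nsmul_eq_mul, Nat.card_Icc]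
    have h4 : ((2 * N + 1 - N / 18 : ℕ) : ℝ) ≤ 3 * N := by
      have h5 : 2 * N + 1 - N / 18 ≤ 3 * N := by omega
      exact_mod_cast h5
    have h5 : 0 ≤ C * N := by positivity
    nlinarith
  · obtain ⟨r', rfl⟩ : ∃ r', r = r' + 1 := ⟨r - 1, by omega⟩
    have hJ0 : (0 : ℝ) < J := by
      have : 0 < J := Nat.succ_pos _
      exact_mod_cast this
    have hn : ∀ n : ℕ, ((Av δ N M T n : ℕ) : ℝ) ^ (r' + 1) ≤
        (J : ℝ) ^ r' * ∑ j ∈ range J, ((av δ N (n + M * (j * b)) : ℕ) : ℝ) ^ (r' + 1) := by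
      intro n
      have h4 : ((Av δ N M T n : ℕ) : ℝ) ≤ ∑ j ∈ range J, ((av δ N (n + M * (j * b)) : ℕ) : ℝ) := by
        exact_mod_cast split δ N M T b n hM hb1 hMb hT1
      have h5 := pow_sum_div_card_le_sum_pow (s := range J)
        (f := fun j => ((av δ N (n + M * (j * b)) : ℕ) : ℝ)) (fun j _ => Nat.cast_nonneg _) r'
      rw [Finset.card_range, div_le_iff₀ (by positivity)] at h5
      calc ((Av δ N M T n : ℕ) : ℝ) ^ (r' + 1)
          ≤ (∑ j ∈ range J, ((av δ N (n + M * (j * b)) : ℕ) : ℝ)) ^ (r' + 1) :=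
            pow_le_pow_left₀ (Nat.cast_nonneg _) h4 _
        _ ≤ _ := by rw [mul_comm]; exact h5
    calc ∑ n ∈ Icc (N / 18) (2 * N), ((Av δ N M T n : ℕ) : ℝ) ^ (r' + 1)
        ≤ ∑ n ∈ Icc (N / 18) (2 * N), (J : ℝ) ^ r' *
            ∑ j ∈ range J, ((av δ N (n + M * (j * b)) : ℕ) : ℝ) ^ (r' + 1) :=
          Finset.sum_le_sum fun n _ => hn n
      _ = (J : ℝ) ^ r' * ∑ j ∈ range J, ∑ n ∈ Icc (N / 18) (2 * N),
            ((av δ N (n + M * (j * b)) : ℕ) : ℝ) ^ (r' + 1) := by
          rw [← Finset.mul_sum, Finset.sum_comm]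
      _ ≤ (J : ℝ) ^ r' * ∑ _j ∈ range J, C * N := by
          refine mul_le_mul_of_nonneg_left ?_ (by positivity)
          refine Finset.sum_le_sum fun j hjj => ?_
          exact (shift_le (fun m => ((av δ N m : ℕ) : ℝ) ^ (r' + 1)) (fun m => by positivity) N _
            (hj j hjj)).trans h1'
      _ = (J : ℝ) ^ (r' + 1) * (C * N) := by
          rw [Finset.sum_const, Finset.card_range, nsmul_eq_mul, pow_succ]
          ring
      _ ≤ ((2 * M + 1 / lam) * (T / Real.log N)) ^ (r' + 1) * (C * N) := by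
          refine mul_le_mul_of_nonneg_right ?_ (by positivity)
          exact pow_le_pow_left₀ hJ0.le hJr _
      _ ≤ (3 + C * (2 * M + 1 / lam) ^ (r' + 1)) * N * (T / Real.log N) ^ (r' + 1) := by
          rw [mul_pow]
          have h6 : 0 ≤ 3 * N * (T / Real.log N) ^ (r' + 1) := by positivity
          nlinarith

end Pool.Agent.N692.RQWB
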