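import Mathlib

set_option autoImplicit false
set_option linter.unusedVariables false

namespace Pool.Agent.N692.Euler

open Complex

/-- `ρ` satisfying the Hecke relations is multiplicative on `p ^ k * n`, `p ∤ n`. -/
lemma rho_pow_mul (lam ρ : ℕ → ℂ) (h1 : ρ 1 = 1)
    (hr : ∀ p : ℕ, p.Prime → ∀ n : ℕ, 1 ≤ n →
      lam p * ρ n = ρ (p * n) + if p ∣ n then ρ (n / p) else 0)
    (p : ℕ) (hp : p.Prime) (n : ℕ) (hn : 1 ≤ n) (hpn : ¬ p ∣ n) :
    ∀ k : ℕ, ρ (p ^ k * n) = ρ (p ^ k) * ρ n := by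
  have hp1 : ρ p = lam p := by
    have h := hr p hp 1 le_rfl
    have hnd : ¬ p ∣ 1 := fun hd => hp.one_lt.ne' (Nat.dvd_one.mp hd)
    rw [if_neg hnd, h1] at h
    simpa using h.symm
  have hpp : 0 < p := hp.pos
  have key : ∀ m : ℕ, 1 ≤ m → ∀ k : ℕ, ρ (p ^ (k + 2) * m) = lam p * ρ (p ^ (k + 1) * m) - ρ (p ^ k * m) := by
    intro m hm k
    have h := hr p hp (p ^ (k + 1) * m) (Nat.mul_pos (pow_pos hpp _) hm)
    have hd : p ∣ p ^ (k + 1) * m := Dvd.dvd.mul_right (dvd_pow_self p (Nat.succ_ne_zero k)) m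
    rw [if_pos hd] at h
    have e1 : p ^ (k + 1) * m / p = p ^ k * m := by
      rw [pow_succ, mul_assoc, mul_comm p m, ← mul_assoc]
      exact Nat.mul_div_cancel _ hpp
    have e2 : p * (p ^ (k + 1) * m) = p ^ (k + 2) * m := by ring
    rw [e1, e2] at h
    rw [h]; ring
  intro k
  induction k using Nat.strong_induction_on with
  | _ k ih =>
    match k, ih with
    | 0, _ => simp [h1]
    | 1, _ =>
      have h := hr p hp n hn
      rw [if_neg hpn] at h
      simp only [pow_one, hp1]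
      rw [h]; ring
    | (k + 2), ih =>
      have a := key n hn k
      have b := key 1 le_rfl k
      simp only [mul_one] at b
      rw [a, b, ih (k + 1) (by omega), ih k (by omega)]
      ring

lemma rho_coprime (lam ρ : ℕ → ℂ) (h1 : ρ 1 = 1) (h0 : ρ 0 = 0)
    (hr : ∀ p : ℕ, p.Prime → ∀ n : ℕ, 1 ≤ n →
      lam p * ρ n = ρ (p * n) + if p ∣ n then ρ (n / p) else 0) :
    ∀ m n : ℕ, Nat.Coprime m n → ρ (m * n) = ρ m * ρ n := by
  intro m
  induction m using Nat.recOnPosPrimePosCoprime with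
  | prime_pow p k hp hk =>
    intro n hc
    rcases Nat.eq_zero_or_pos n with rfl | hn
    · simp [h0]
    have hpn : ¬ p ∣ n := by
      intro hd
      have : p ∣ Nat.gcd (p ^ k) n := Nat.dvd_gcd (dvd_pow_self p hk.ne') hd
      rw [hc] at this
      exact hp.one_lt.ne' (Nat.dvd_one.mp this)
    exact rho_pow_mul lam ρ h1 hr p hp n hn hpn k
  | zero =>
    intro n _
    simp [h0]
  | one =>
    intro n _
    simp [h1]
  | coprime a b ha hb hab iha ihb =>
    intro n hc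
    have ca : Nat.Coprime a n := Nat.Coprime.coprime_mul_right hc
    have cb : Nat.Coprime b n := Nat.Coprime.coprime_mul_left hc
    rw [mul_assoc, iha (b * n) (Nat.Coprime.mul_right hab ca), ihb n cb, iha b hab]
    ring

/-- Euler product from the Hecke relations. -/
theorem euler (lam : ℕ → ℂ) (C : ℕ → ℂ) (B : ℝ) (hB : ∀ n, ‖C n‖ ≤ B) (hC0 : C 0 = 0)
    (hecke : ∀ p : ℕ, p.Prime → ∀ n : ℕ, 1 ≤ n →
      (Real.sqrt p : ℂ) * lam p * C n = p * C (p * n) + if p ∣ n then C (n / p) else 0)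
    (q : ℕ) [NeZero q] (χ : DirichletCharacter ℂ q) (s : ℂ) (hs : 3 / 2 < s.re) (Z : ℂ)
    (hZ : HasSum (fun n : ℕ => (Real.sqrt n : ℂ) * C n * χ n * (n : ℂ) ^ (-s)) Z) (hC1 : C 1 ≠ 0) :
    HasProd (fun p : Nat.Primes =>
      (1 - lam p * χ (p : ℕ) * ((p : ℕ) : ℂ) ^ (-s) + χ (p : ℕ) ^ 2 * ((p : ℕ) : ℂ) ^ (-2 * s))⁻¹)
      (Z / C 1) := by
  set ρ : ℕ → ℂ := fun n => (Real.sqrt n : ℂ) * C n / C 1 with hρ
  have h1 : ρ 1 = 1 := by simp [hρ, hC1]
  have h0 : ρ 0 = 0 := by simp [hρ]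
  have hr : ∀ p : ℕ, p.Prime → ∀ n : ℕ, 1 ≤ n →
      lam p * ρ n = ρ (p * n) + if p ∣ n then ρ (n / p) else 0 := by
    intro p hp n hn
    have h := hecke p hp n hn
    have hpR : (0 : ℝ) < p := by exact_mod_cast hp.pos
    have hsp : (Real.sqrt p : ℂ) ≠ 0 := by
      exact_mod_cast (Real.sqrt_pos.mpr hpR).ne'
    have hspp : (Real.sqrt p : ℂ) * (Real.sqrt p : ℂ) = (p : ℂ) := by
      rw [← Complex.ofReal_mul, Real.mul_self_sqrt hpR.le]; simp
    have e1 : (Real.sqrt ((p * n : ℕ) : ℝ) : ℂ) = (Real.sqrt p : ℂ) * (Real.sqrt n : ℂ) := by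
      rw [Nat.cast_mul, Real.sqrt_mul hpR.le]; simp
    have hmain : lam p * C n = (Real.sqrt p : ℂ) * C (p * n)
        + if p ∣ n then C (n / p) / (Real.sqrt p : ℂ) else 0 := by
      apply mul_left_cancel₀ hsp
      rw [← mul_assoc, h]
      split_ifs
      · field_simp
        rw [← hspp]; ring
      · rw [← hspp]; ring
    simp only [hρ]
    rw [e1]
    have : lam p * ((Real.sqrt n : ℂ) * C n / C 1) = (Real.sqrt n : ℂ) / C 1 * (lam p * C n) := by ring
    rw [this, hmain]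
    by_cases hd : p ∣ n
    · rw [if_pos hd, if_pos hd]
      obtain ⟨m, rfl⟩ := hd
      have e2 : p * m / p = m := Nat.mul_div_cancel_left m hp.pos
      rw [e2]
      have e3 : (Real.sqrt ((p * m : ℕ) : ℝ) : ℂ) = (Real.sqrt p : ℂ) * (Real.sqrt m : ℂ) := by
        rw [Nat.cast_mul, Real.sqrt_mul hpR.le]; simp
      rw [e3]
      field_simp
    · rw [if_neg hd, if_neg hd]
      ring
  have hmul := rho_coprime lam ρ h1 h0 hr
  set f : ℕ → ℂ := fun n => ρ n * (χ n * (n : ℂ) ^ (-s)) with hf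
  have hfsum : HasSum f (Z / C 1) := by
    have := hZ.div_const (C 1)
    refine this.congr_fun ?_ |> fun h => h
    intro n
    simp only [hf, hρ]
    ring
  have f1 : f 1 = 1 := by simp [hf, h1]
  have f0 : f 0 = 0 := by simp [hf, h0]
  have fmul : ∀ {m n : ℕ}, Nat.Coprime m n → f (m * n) = f m * f n := by
    intro m n hc
    simp only [hf]
    rw [hmul m n hc]
    have : ((m * n : ℕ) : ℂ) ^ (-s) = (m : ℂ) ^ (-s) * (n : ℂ) ^ (-s) := by
      rw [Nat.cast_mul, Complex.natCast_mul_natCast_cpow]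
    rw [this]
    push_cast
    rw [map_mul]
    ring
  have hsum : Summable (fun n => ‖f n‖) := hfsum.summable.norm
  have hprod := EulerProduct.eulerProduct_hasProd f1 fmul hsum f0
  rw [hfsum.tsum_eq] at hprod
  refine hprod.congr_fun ?_ |> fun h => h
  intro p
  obtain ⟨p, hp⟩ := p
  simp only
  set X : ℂ := χ (p : ℕ) * (p : ℂ) ^ (-s) with hX
  have hfp : ∀ e : ℕ, f (p ^ e) = ρ (p ^ e) * X ^ e := by
    intro e
    have e1 : ((p ^ e : ℕ) : ℂ) ^ (-s) = ((p : ℂ) ^ (-s)) ^ e := by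
      induction e with
      | zero => simp
      | succ e ih =>
        rw [pow_succ, Nat.cast_mul, Complex.natCast_mul_natCast_cpow, ih, pow_succ]
    simp only [hf, hX]
    rw [e1, mul_pow]
    congr 2
    push_cast
    rw [map_pow]
  have hX2 : χ (p : ℕ) ^ 2 * (p : ℂ) ^ (-2 * s) = X ^ 2 := by
    simp only [hX]
    rw [mul_pow]
    congr 1
    rw [← Complex.cpow_nat_mul]
    congr 1
    push_cast
    ring
  have hsX : Summable (fun e : ℕ => ρ (p ^ e) * X ^ e) := by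
    have := hfsum.summable.comp_injective (Nat.pow_right_injective hp.two_le)
    refine this.congr ?_
    intro e
    exact (hfp e).symm ▸ rfl
  have hp1 : ρ p = lam p := by
    have h := hr p hp 1 le_rfl
    have hnd : ¬ p ∣ 1 := fun hd => hp.one_lt.ne' (Nat.dvd_one.mp hd)
    rw [if_neg hnd, h1] at h
    simpa using h.symm
  have key : ∀ k : ℕ, ρ (p ^ (k + 2)) = lam p * ρ (p ^ (k + 1)) - ρ (p ^ k) := by
    intro k
    have h := hr p hp (p ^ (k + 1)) (pow_pos hp.pos _)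
    have hd : p ∣ p ^ (k + 1) := dvd_pow_self p (Nat.succ_ne_zero k)
    rw [if_pos hd] at h
    have e1 : p ^ (k + 1) / p = p ^ k := by
      rw [pow_succ]
      exact Nat.mul_div_cancel _ hp.pos
    have e2 : p * p ^ (k + 1) = p ^ (k + 2) := by ring
    rw [e1, e2] at h
    rw [h]; ring
  have hS : (∑' e : ℕ, f (p ^ e)) = ∑' e : ℕ, ρ (p ^ e) * X ^ e := tsum_congr hfp
  show _ = ∑' e : ℕ, f (p ^ e)
  rw [hS]
  set S : ℂ := ∑' e : ℕ, ρ (p ^ e) * X ^ e with hSdef
  have hs1 : Summable (fun e : ℕ => ρ (p ^ (e + 1)) * X ^ (e + 1)) :=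
    (summable_nat_add_iff (f := fun e : ℕ => ρ (p ^ e) * X ^ e) 1).mpr hsX
  have hs2 : Summable (fun e : ℕ => ρ (p ^ (e + 2)) * X ^ (e + 2)) :=
    (summable_nat_add_iff (f := fun e : ℕ => ρ (p ^ e) * X ^ e) 2).mpr hsX
  have t1 : S = 1 + ∑' e : ℕ, ρ (p ^ (e + 1)) * X ^ (e + 1) := by
    rw [hSdef, hsX.tsum_eq_zero_add]
    simp [h1]
  have t2 : (∑' e : ℕ, ρ (p ^ (e + 1)) * X ^ (e + 1)) = lam p * X + ∑' e : ℕ, ρ (p ^ (e + 2)) * X ^ (e + 2) := by
    rw [hs1.tsum_eq_zero_add]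
    simp [hp1]
  have t3 : (∑' e : ℕ, ρ (p ^ (e + 2)) * X ^ (e + 2)) =
      lam p * X * (∑' e : ℕ, ρ (p ^ (e + 1)) * X ^ (e + 1)) - X ^ 2 * S := by
    rw [hSdef, ← tsum_mul_left, ← tsum_mul_left, ← (hs1.mul_left _).tsum_sub (hsX.mul_left _)]
    apply tsum_congr
    intro e
    rw [key e]; ring
  rw [hX2, mul_assoc, ← hX]
  symm
  apply eq_inv_of_mul_eq_one_left
  have : (∑' e : ℕ, ρ (p ^ (e + 1)) * X ^ (e + 1)) = S - 1 := by rw [t1]; ring
  rw [this] at t2 t3
  rw [t3] at t2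
  linear_combination t2

theorem C_zero (c : ℕ → ℂ) (C : ℕ → ℂ) (hC0 : C 0 = 0)
    (hecke : ∀ p : ℕ, p.Prime → ∀ n : ℕ, 1 ≤ n →
      c p * C n = p * C (p * n) + if p ∣ n then C (n / p) else 0) (h1 : C 1 = 0) : ∀ n, C n = 0 := by
  intro n
  induction n using Nat.strong_induction_on with
  | _ n ih =>
    rcases Nat.lt_or_ge n 2 with hn | hn
    · interval_cases n
      · exact hC0
      · exact h1
    · obtain ⟨p, hp, m, rfl⟩ := Nat.exists_prime_and_dvd (show n ≠ 1 by omega)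
      have hm : 1 ≤ m := by
        rcases Nat.eq_zero_or_pos m with rfl | h
        · simp at hn
        · exact h
      have hlt : m < p * m := by
        have := hp.two_le
        nlinarith
      have h := hecke p hp m hm
      rw [ih m hlt] at h
      have h2 : (if p ∣ m then C (m / p) else 0) = 0 := by
        split_ifs
        · exact ih (m / p) (lt_of_le_of_lt (Nat.div_le_self m p) hlt)
        · rfl
      rw [h2, mul_zero, add_zero] at h
      have hp0 : (p : ℂ) ≠ 0 := by exact_mod_cast hp.ne_zero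
      exact (mul_eq_zero.mp h.symm).resolve_left hp0

end Pool.Agent.N692.Euler
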