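import Pool.Agent.N906.FH.Stm
import Pool.Agent.N92.SZ_UP

set_option autoImplicit false

/-! # Project FH, UPG: the assembly of the upper bound -/

namespace Pool.Agent.N692.FH

open Finset Filter Topology Pool.Agent.N906.SZ Pool.Agent.N906.FH

/-- the size of the coefficients -/
theorem upg_size {A : ℝ} (hA : 0 ≤ A) {a b : ℤ} (h : Mx a b ≤ A ^ 6) :
    |(a : ℝ)| ≤ A ^ 2 ∧ |(b : ℝ)| ≤ A ^ 3 := by
  have h1 : |(a : ℝ)| ^ 3 ≤ A ^ 6 := (le_max_left _ _).trans h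
  have h2 : |((Dd a b : ℤ) : ℝ)| ≤ A ^ 6 := (le_max_right _ _).trans h
  refine ⟨?_, ?_⟩
  · refine le_of_pow_le_pow_left₀ (n := 3) (by norm_num) (by positivity) ?_
    calc |(a : ℝ)| ^ 3 ≤ A ^ 6 := h1
      _ = (A ^ 2) ^ 3 := by ring
  · refine le_of_pow_le_pow_left₀ (n := 2) (by norm_num) (by positivity) ?_
    have e : ((Dd a b : ℤ) : ℝ) = 4 * (a : ℝ) ^ 3 - 27 * (b : ℝ) ^ 2 := by
      unfold Dd; push_cast; ring
    rw [e, abs_le] at h2
    have h3 : (a : ℝ) ^ 3 ≤ A ^ 6 := by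
      calc (a : ℝ) ^ 3 ≤ |(a : ℝ) ^ 3| := le_abs_self _
        _ = |(a : ℝ)| ^ 3 := abs_pow _ _
        _ ≤ A ^ 6 := h1
    rw [sq_abs]
    have h4 : (b : ℝ) ^ 2 ≤ A ^ 6 := by nlinarith [h2.1, h2.2, h3, sq_nonneg (b : ℝ)]
    calc (b : ℝ) ^ 2 ≤ A ^ 6 := h4
      _ = (A ^ 3) ^ 2 := by ring

/-- `Mx` is at most `64 X ^ 6` -/
theorem upg_mx {X : ℝ} {a b : ℤ} (h1 : |(a : ℝ)| ≤ X ^ 2) (h2 : |(b : ℝ)| ≤ X ^ 3) :
    Mx a b ≤ 64 * X ^ 6 := by
  unfold Mx
  apply max_le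
  · calc |(a : ℝ)| ^ 3 ≤ (X ^ 2) ^ 3 := pow_le_pow_left₀ (abs_nonneg _) h1 3
      _ = X ^ 6 := by ring
      _ ≤ 64 * X ^ 6 := by nlinarith [sq_nonneg (X ^ 3)]
  · refine (Pool.Agent.N92.SZ.D_bound h1 h2).trans ?_
    nlinarith [sq_nonneg (X ^ 3)]

/-- a minimal divisor `n ≥ T` -/
theorem upg_div (P : ℕ → ℤ → ℤ → Prop) (hP : ∀ n m a b, 1 ≤ m → n ∣ m → P m a b → P n a b)
    (a b : ℤ) (n₀ : ℕ) (h0 : 1 ≤ n₀) (hC : P n₀ a b) (T : ℝ) (hT : T ≤ n₀) :
    ∃ n : ℕ, 1 ≤ n ∧ T ≤ n ∧ P n a b ∧ ∀ p ∈ n.primeFactors, (n : ℝ) / p < T := by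
  classical
  have hex : ∃ n : ℕ, n ∣ n₀ ∧ T ≤ n := ⟨n₀, dvd_rfl, hT⟩
  obtain ⟨hd, hTn⟩ := Nat.find_spec hex
  set n := Nat.find hex with hn
  have hn1 : 1 ≤ n := Nat.pos_of_dvd_of_pos hd h0
  refine ⟨n, hn1, hTn, hP _ _ _ _ h0 hd hC, ?_⟩
  intro p hp
  by_contra hcon
  push Not at hcon
  have hpp := Nat.prime_of_mem_primeFactors hp
  have hpn := Nat.dvd_of_mem_primeFactors hp
  have hcast : ((n / p : ℕ) : ℝ) = (n : ℝ) / p := Nat.cast_div hpn (by
    have := hpp.pos; positivity)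
  have hlt : n / p < n := Nat.div_lt_self hn1 hpp.one_lt
  apply Nat.find_min hex hlt
  refine ⟨(Nat.div_dvd_of_dvd hpn).trans hd, ?_⟩
  rw [hcast]; exact hcon

/-- one block `A⁶ / 64 ≤ Mx ≤ A⁶`, `Y / 2 < |D| ≤ Y` -/
theorem upg_block (h : S_UPB2) (P : ℕ → ℤ → ℤ → Prop) (w : ℕ → ℝ) (μ : ℝ) (hw : ∀ n, 0 ≤ w n)
    (hP : ∀ n m a b, 1 ≤ m → n ∣ m → P m a b → P n a b)
    (hPC : ∀ n a b, Mn a b → P n a b → Cn n a b) (hcnt : S_CNTg P w) (hupa : S_UPAg P μ)
    (lam K ε : ℝ) (hl0 : 0 < lam) (hl1 : lam < 1 / 6) (hK : 1 ≤ K) (hε : 0 < ε) :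
    ∃ c₁ A₀ : ℝ, 0 < c₁ ∧ 3 < A₀ ∧ ∀ (A Y : ℝ) (F : Finset (ℤ × ℤ)), A₀ ≤ A → 1 ≤ Y → Y ≤ A ^ 6 →
      (∀ x ∈ F, x.1 ≠ 0 ∧ Mn x.1 x.2 ∧ Rg A Y x.1 x.2 ∧ Y / 2 < |((Dd x.1 x.2 : ℤ) : ℝ)| ∧
        ∃ n : ℕ, 1 ≤ n ∧ P n x.1 x.2 ∧
          |((Dd x.1 x.2 : ℤ) : ℝ)| ≤ K * n * (A ^ 6) ^ (1 - lam)) →
      (F.card : ℝ) ≤ c₁ * Real.exp ((5 - 6 * lam) * Real.log A +
        (1 + ε) * √(48 * μ * lam * Real.log A / Real.log (Real.log A))) := by
  classical
  obtain ⟨C, hC, hcn⟩ := hcnt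
  set η : ℝ := 1 - 6 * lam with hη
  have hη0 : 0 < η := by rw [hη]; linarith
  obtain ⟨Xa, hXa3, ha⟩ := hupa lam (2 * K) ε hl0 hl1 (by linarith) hε
  obtain ⟨Xb, hXb3, hb⟩ := h lam (2 * K) η hl0 hl1 (by linarith) hη0
  have hW3 : ∀ᶠ X : ℝ in atTop, 3 ≤ X ^ η := (tendsto_rpow_atTop hη0).eventually_ge_atTop 3
  obtain ⟨Xc, hXc⟩ := eventually_atTop.mp hW3
  refine ⟨C * w 1 * (2 * K + 1) + 2, max (max Xa Xb) (max Xc 4), by
    have := hw 1
    positivity, by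
    have := le_max_left Xa Xb
    have := le_max_left (max Xa Xb) (max Xc 4)
    linarith, ?_⟩
  intro A Y F hA hY1 hYA hF
  have hXa : Xa ≤ A := ((le_max_left _ _).trans (le_max_left _ _)).trans hA
  have hXb : Xb ≤ A := ((le_max_right _ _).trans (le_max_left _ _)).trans hA
  have hXc' : Xc ≤ A := ((le_max_left _ _).trans (le_max_right _ _)).trans hA
  have hA4 : (4 : ℝ) ≤ A := ((le_max_right _ _).trans (le_max_right _ _)).trans hA
  have hW := hXc A hXc'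
  have hA0 : 0 < A := by linarith
  have hA1 : 1 ≤ A := by linarith
  have hK0 : 0 < K := by linarith
  set E : ℝ := Real.exp ((5 - 6 * lam) * Real.log A +
    (1 + ε) * √(48 * μ * lam * Real.log A / Real.log (Real.log A))) with hE
  have hAE : A ^ (5 - 6 * lam) ≤ E := by
    rw [Real.rpow_def_of_pos hA0, hE]
    apply Real.exp_le_exp.mpr
    have : 0 ≤ (1 + ε) * √(48 * μ * lam * Real.log A / Real.log (Real.log A)) := by positivity
    linarith
  have hE0 : 0 < E := Real.exp_pos _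
  have eA : (A ^ 6) ^ (1 - lam) = A ^ (6 - 6 * lam) := by
    rw [← Real.rpow_natCast A 6, ← Real.rpow_mul hA0.le]
    congr 1
    push_cast
    ring
  set Q : ℝ := A ^ (6 - 6 * lam) with hQ
  have hQ0 : 0 < Q := by positivity
  set T : ℝ := Y / (2 * K * Q) with hT
  have hTY : Y = 2 * K * T * Q := by
    rw [hT]; field_simp
  have hT0 : 0 < T := by rw [hT]; positivity
  have hQA : A ^ 6 = A ^ (6 * lam) * Q := by
    rw [hQ, ← Real.rpow_add hA0, ← Real.rpow_natCast A 6]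
    congr 1
    push_cast
    ring
  have hTA : T ≤ A ^ (6 * lam) := by
    rw [hT, div_le_iff₀ (by positivity)]
    have h1 : 0 < A ^ (6 * lam) := by positivity
    calc Y ≤ A ^ (6 * lam) * Q := by rw [← hQA]; exact hYA
      _ ≤ A ^ (6 * lam) * (2 * K * Q) := by
          apply mul_le_mul_of_nonneg_left _ h1.le
          nlinarith
  have hT2 : T ≤ 2 * K * A ^ (6 * lam) := by
    have h1 : 0 < A ^ (6 * lam) := by positivity
    nlinarith
  have hA5 : Q / A = A ^ (5 - 6 * lam) := by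
    rw [hQ]
    rw [show (6 : ℝ) - 6 * lam = (5 - 6 * lam) + 1 by ring, Real.rpow_add hA0, Real.rpow_one]
    field_simp
  have hA2 : A ^ 2 ≤ A ^ (5 - 6 * lam) := by
    rw [← Real.rpow_natCast A 2]
    apply Real.rpow_le_rpow_of_exponent_le hA1
    push_cast
    linarith
  have hrd1 : rd 1 = 1 := by simp [rd]
  by_cases hT1 : T < 1
  · have h1 := hcn A Y 1 hA1 hY1 le_rfl (by
      rw [hrd1]
      push_cast
      nlinarith) F (by
      intro x hx
      obtain ⟨-, g2, g3, -, n, hn, g4, -⟩ := hF x hx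
      exact ⟨g2, g3, hP 1 n _ _ hn (one_dvd _) g4⟩)
    rw [hrd1] at h1
    norm_num at h1
    have h2 : Y / A ≤ 2 * K * A ^ (5 - 6 * lam) := by
      rw [← hA5, hTY, div_le_iff₀ hA0]
      have : 2 * K * (Q / A) * A = 2 * K * Q := by field_simp
      rw [this]
      have : 0 < 2 * K * Q := by positivity
      nlinarith
    have hCw : 0 ≤ C * w 1 := mul_nonneg hC.le (hw 1)
    calc (F.card : ℝ) ≤ C * w 1 * (Y / A + A ^ 2) := h1
      _ ≤ C * w 1 * (2 * K * E + E) := by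
          apply mul_le_mul_of_nonneg_left _ hCw
          nlinarith
      _ = C * w 1 * (2 * K + 1) * E := by ring
      _ ≤ (C * w 1 * (2 * K + 1) + 2) * E := by nlinarith
  push Not at hT1
  -- the divisor
  have hdiv : ∀ x ∈ F, ∃ n : ℕ, 1 ≤ n ∧ T ≤ n ∧ P n x.1 x.2 ∧
      ∀ p ∈ n.primeFactors, (n : ℝ) / p < T := by
    intro x hx
    obtain ⟨-, -, -, hD, n₀, hn₀, hPn, hDn⟩ := hF x hx
    refine upg_div P hP x.1 x.2 n₀ hn₀ hPn T ?_
    rw [eA] at hDn
    have h1 : Y / 2 < K * n₀ * Q := lt_of_lt_of_le hD hDn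
    rw [hT, div_le_iff₀ (by positivity)]
    nlinarith
  set W : ℝ := A ^ η with hWd
  have hW0 : 0 < W := by linarith
  have hR : T * W ≤ A := by
    calc T * W ≤ A ^ (6 * lam) * A ^ η := mul_le_mul_of_nonneg_right hTA hW0.le
      _ = A := by
          rw [← Real.rpow_add hA0, hη]
          have : 6 * lam + (1 - 6 * lam) = 1 := by ring
          rw [this, Real.rpow_one]
  set FA := F.filter (fun x => ∃ n : ℕ, 1 ≤ n ∧ T ≤ n ∧ (n : ℝ) ≤ T * W ∧ P n x.1 x.2) with hFA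
  set FB := F.filter (fun x => ∃ n : ℕ, T * W < n ∧ n.Coprime 6 ∧
    (∀ p ∈ n.primeFactors, (n : ℝ) / p < T) ∧ Cn n x.1 x.2) with hFB
  have hcov : F ⊆ FA ∪ FB := by
    intro x hx
    rw [Finset.mem_union, hFA, hFB, Finset.mem_filter, Finset.mem_filter]
    obtain ⟨n, hn1, hTn, hPn, hp⟩ := hdiv x hx
    by_cases hnR : (n : ℝ) ≤ T * W
    · exact Or.inl ⟨hx, n, hn1, hTn, hnR, hPn⟩
    · right
      push Not at hnR
      refine ⟨hx, n, hnR, ?_, hp, hPC n _ _ (hF x hx).2.1 hPn⟩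
      have hbig : ∀ p ∈ n.primeFactors, 3 < p := by
        intro p hpn
        have hpp := Nat.prime_of_mem_primeFactors hpn
        have hp0 : (0 : ℝ) < p := by exact_mod_cast hpp.pos
        have h1 := hp p hpn
        rw [div_lt_iff₀ hp0] at h1
        have h2 : T * W < T * p := lt_trans hnR h1
        have h3 : W < p := lt_of_mul_lt_mul_left h2 hT0.le
        have h4 : (3 : ℝ) < p := lt_of_le_of_lt hW h3
        exact_mod_cast h4
      rw [Nat.coprime_comm]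
      have h6 : (6 : ℕ) = 2 * 3 := by norm_num
      rw [h6]
      apply Nat.Coprime.mul_left
      · rw [Nat.Prime.coprime_iff_not_dvd Nat.prime_two]
        intro h2
        have := hbig 2 (Nat.mem_primeFactors.mpr ⟨Nat.prime_two, h2, by omega⟩)
        omega
      · rw [Nat.Prime.coprime_iff_not_dvd Nat.prime_three]
        intro h2
        have := hbig 3 (Nat.mem_primeFactors.mpr ⟨Nat.prime_three, h2, by omega⟩)
        omega
  have hA' : (FA.card : ℝ) ≤ E := by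
    refine ha A Y T (T * W) FA hXa hY1 hT1 hT2 hTY.le hR ?_
    intro x hx
    rw [hFA, Finset.mem_filter] at hx
    obtain ⟨hxF, n, hn1, hn2, hn3, hn4⟩ := hx
    exact ⟨(hF x hxF).2.1, (hF x hxF).2.2.1, n, hn1, hn2, hn3, hn4⟩
  have hB' : (FB.card : ℝ) ≤ A ^ (5 - 6 * lam) := by
    refine hb A Y T FB hXb hY1 hT1 hT2 hTY.le ?_
    intro x hx
    rw [hFB, Finset.mem_filter] at hx
    obtain ⟨hxF, n, hn1, hn2, hn3, hn4⟩ := hx
    exact ⟨(hF x hxF).1, (hF x hxF).2.1, (hF x hxF).2.2.1, n, hn1, hn2, hn3, hn4⟩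
  have hcard : (F.card : ℝ) ≤ FA.card + FB.card := by
    exact_mod_cast (Finset.card_le_card hcov).trans (Finset.card_union_le _ _)
  have hCw : 0 ≤ C * w 1 * (2 * K + 1) := mul_nonneg (mul_nonneg hC.le (hw 1)) (by linarith)
  calc (F.card : ℝ) ≤ 2 * E := by linarith
    _ ≤ (C * w 1 * (2 * K + 1) + 2) * E := by nlinarith

/-- comparison of the bounds for `A` and for `X` -/
theorem upg_comp (ν lam ε : ℝ) (hν : 0 < ν) (hl0 : 0 < lam) (hl1 : lam < 1 / 6) (hε : 0 < ε) :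
    ∃ X₀ : ℝ, 3 < X₀ ∧ ∀ X A : ℝ, X₀ ≤ X → √X ≤ A → A ≤ 2 * X →
      Real.exp ((5 - 6 * lam) * Real.log A +
        (1 + ε / 4) * √(ν * Real.log A / Real.log (Real.log A))) ≤
      32 * Real.exp ((5 - 6 * lam) * Real.log X +
        (1 + ε / 2) * √(ν * Real.log X / Real.log (Real.log X))) := by
  set δ : ℝ := (ε / 4) / (1 + ε / 4) with hδ
  have hδ0 : 0 < δ := by positivity
  have hδε : (1 + ε / 4) * (1 + δ) = 1 + ε / 2 := by rw [hδ]; field_simp; ring
  refine ⟨max 4 (Real.exp (max 6 (1 / δ))), by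
    have := le_max_left 4 (Real.exp (max 6 (1 / δ)))
    linarith, ?_⟩
  intro X A hX hAl hAu
  have hX4 : 4 ≤ X := (le_max_left _ _).trans hX
  have hX0 : 0 < X := by linarith
  have hXe : Real.exp (max 6 (1 / δ)) ≤ X := (le_max_right _ _).trans hX
  have hL : max 6 (1 / δ) ≤ Real.log X := (Real.le_log_iff_exp_le hX0).mpr hXe
  have hL6 : 6 ≤ Real.log X := (le_max_left _ _).trans hL
  have hLδ : 1 / δ ≤ Real.log X := (le_max_right _ _).trans hL
  have hsX : 0 < √X := Real.sqrt_pos.mpr hX0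
  have hA0 : 0 < A := lt_of_lt_of_le hsX hAl
  have hl2 : Real.log 2 ≤ 1 := by
    have := Real.log_two_lt_d9
    linarith
  have hlA1 : Real.log X / 2 ≤ Real.log A := by
    rw [← Real.log_sqrt hX0.le]
    exact Real.log_le_log hsX hAl
  have hlA2 : Real.log A ≤ Real.log 2 + Real.log X := by
    rw [← Real.log_mul (by norm_num) hX0.ne']
    exact Real.log_le_log hA0 hAu
  have hlA3 : Real.log A ≤ (1 + δ) * Real.log X := by
    rw [div_le_iff₀ hδ0] at hLδ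
    nlinarith
  have he3 : Real.exp 1 ≤ 3 := by
    have := Real.exp_one_lt_d9
    linarith
  have hA3 : 3 ≤ Real.log A := by linarith
  have hllA : 0 < Real.log (Real.log A) := Real.log_pos (by linarith)
  have hllX : 0 < Real.log (Real.log X) := Real.log_pos (by linarith)
  have hL2 : Real.log X ≤ (1 + δ) * Real.log X := by nlinarith
  have hllL2 : Real.log (Real.log X) ≤ Real.log ((1 + δ) * Real.log X) :=
    Real.log_le_log (by linarith) hL2
  have hq : Real.log A / Real.log (Real.log A) ≤ (1 + δ) * Real.log X / Real.log (Real.log X) := by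
    have h1 := Real.log_div_self_antitoneOn (a := Real.log A) (b := (1 + δ) * Real.log X)
      (show Real.exp 1 ≤ Real.log A by linarith)
      (show Real.exp 1 ≤ (1 + δ) * Real.log X by linarith) hlA3
    simp only at h1
    rw [div_le_div_iff₀ (by linarith) (by linarith)] at h1
    have h2 : Real.log A / Real.log (Real.log A) ≤
        (1 + δ) * Real.log X / Real.log ((1 + δ) * Real.log X) := by
      rw [div_le_div_iff₀ hllA (by linarith)]
      linarith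
    refine h2.trans ?_
    exact div_le_div_of_nonneg_left (by positivity) hllX hllL2
  set s : ℝ := √(ν * Real.log X / Real.log (Real.log X)) with hs
  have hs0 : 0 ≤ s := Real.sqrt_nonneg _
  have hsq : √(ν * Real.log A / Real.log (Real.log A)) ≤ (1 + δ) * s := by
    apply Real.sqrt_le_iff.mpr
    refine ⟨by positivity, ?_⟩
    have h3 : 0 ≤ ν * Real.log X / Real.log (Real.log X) := by
      apply div_nonneg _ hllX.le
      apply mul_nonneg hν.le
      linarith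
    rw [mul_pow, hs, Real.sq_sqrt h3]
    calc ν * Real.log A / Real.log (Real.log A) = ν * (Real.log A / Real.log (Real.log A)) := by ring
      _ ≤ ν * ((1 + δ) * Real.log X / Real.log (Real.log X)) := mul_le_mul_of_nonneg_left hq hν.le
      _ = (1 + δ) * (ν * Real.log X / Real.log (Real.log X)) := by ring
      _ ≤ (1 + δ) ^ 2 * (ν * Real.log X / Real.log (Real.log X)) := by
          apply mul_le_mul_of_nonneg_right _ h3
          nlinarith
  have e32 : (32 : ℝ) = Real.exp (5 * Real.log 2) := by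
    rw [mul_comm, Real.exp_mul, Real.exp_log (by norm_num)]
    norm_num
  rw [e32, ← Real.exp_add]
  apply Real.exp_le_exp.mpr
  have h5 : (5 - 6 * lam) * Real.log A ≤ 5 * Real.log 2 + (5 - 6 * lam) * Real.log X := by
    have h6 : 0 ≤ Real.log 2 := Real.log_nonneg (by norm_num)
    nlinarith
  have h6 : (1 + ε / 4) * √(ν * Real.log A / Real.log (Real.log A)) ≤ (1 + ε / 2) * s := by
    calc (1 + ε / 4) * √(ν * Real.log A / Real.log (Real.log A)) ≤ (1 + ε / 4) * ((1 + δ) * s) :=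
          mul_le_mul_of_nonneg_left hsq (by positivity)
      _ = (1 + ε / 2) * s := by rw [← mul_assoc, hδε]
  linarith

/-- the number of pairs in a box -/
theorem upg_box (R S : ℝ) (hR : 0 ≤ R) (hS : 0 ≤ S) (F : Finset (ℤ × ℤ))
    (hF : ∀ x ∈ F, |(x.1 : ℝ)| ≤ R ∧ |(x.2 : ℝ)| ≤ S) :
    (F.card : ℝ) ≤ (2 * R + 1) * (2 * S + 1) := by
  have key : ∀ (R : ℝ), 0 ≤ R → ((Icc (-⌊R⌋) ⌊R⌋).card : ℝ) ≤ 2 * R + 1 ∧
      ∀ a : ℤ, |(a : ℝ)| ≤ R → a ∈ Icc (-⌊R⌋) ⌊R⌋ := by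
    intro R hR
    have hA0 : 0 ≤ ⌊R⌋ := Int.floor_nonneg.mpr hR
    refine ⟨?_, ?_⟩
    · rw [Int.card_Icc]
      have h2 : (⌊R⌋ + 1 - -⌊R⌋).toNat = 2 * ⌊R⌋.toNat + 1 := by omega
      rw [h2]
      have h5 : ((⌊R⌋.toNat : ℕ) : ℝ) = ((⌊R⌋ : ℤ) : ℝ) := by
        have : ((⌊R⌋.toNat : ℤ) : ℝ) = ((⌊R⌋ : ℤ) : ℝ) := by rw [Int.toNat_of_nonneg hA0]
        rw [← this]; norm_cast
      have h6 := Int.floor_le R
      push_cast
      rw [h5]
      linarith
    · intro a ha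
      rw [Finset.mem_Icc]
      have h1 : |a| ≤ ⌊R⌋ := by
        rw [Int.le_floor]; push_cast; exact ha
      exact abs_le.mp h1
  have hsub : F ⊆ Icc (-⌊R⌋) ⌊R⌋ ×ˢ Icc (-⌊S⌋) ⌊S⌋ := by
    intro x hx
    rw [Finset.mem_product]
    exact ⟨(key R hR).2 _ (hF x hx).1, (key S hS).2 _ (hF x hx).2⟩
  have h1 := Finset.card_le_card hsub
  rw [Finset.card_product] at h1
  calc (F.card : ℝ) ≤ ((Icc (-⌊R⌋) ⌊R⌋).card : ℝ) * ((Icc (-⌊S⌋) ⌊S⌋).card : ℝ) := by
        exact_mod_cast h1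
    _ ≤ _ := mul_le_mul (key R hR).1 (key S hS).1 (by positivity) (by linarith)

/-- **UPG** -/
theorem upg (h : S_UPB2) : S_UPG := by
  classical
  intro P w μ hμ hw hP hPC hcnt hupa lam K ε hl0 hl1 hK hε
  obtain ⟨c₁, A₀, hc₁, hA₀, hblk⟩ := upg_block h P w μ hw hP hPC hcnt hupa lam K (ε / 4) hl0 hl1 hK
    (by positivity)
  have hν : 0 < 48 * μ * lam := by positivity
  obtain ⟨X₁, hX₁, hcomp⟩ := upg_comp (48 * μ * lam) lam ε hν hl0 hl1 hε
  set c₂ : ℝ := 12 + 4608 * c₁ with hc₂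
  have hc₂0 : 0 < c₂ := by positivity
  have hasym := Pool.Agent.N92.SZ.up_asym c₂ (48 * μ * lam) (ε / 6) hν (by positivity)
  obtain ⟨X₂, hX₂⟩ := eventually_atTop.mp hasym
  refine ⟨max (max X₁ X₂) (max (A₀ ^ 2) 31), by
    have := le_max_right (A₀ ^ 2) 31
    have := le_max_right (max X₁ X₂) (max (A₀ ^ 2) 31)
    linarith, ?_⟩
  intro X F hX hF
  have hXa : X₁ ≤ X := ((le_max_left _ _).trans (le_max_left _ _)).trans hX
  have hXb : X₂ ≤ X := ((le_max_right _ _).trans (le_max_left _ _)).trans hX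
  have hXc : A₀ ^ 2 ≤ X := ((le_max_left _ _).trans (le_max_right _ _)).trans hX
  have hX31 : (31 : ℝ) ≤ X := ((le_max_right _ _).trans (le_max_right _ _)).trans hX
  have hX0 : 0 < X := by linarith
  have hX1 : 1 ≤ X := by linarith
  have has := hX₂ X hXb
  set s : ℝ := √(48 * μ * lam * Real.log X / Real.log (Real.log X)) with hs
  have hs0 : 0 ≤ s := Real.sqrt_nonneg _
  set E : ℝ := Real.exp ((5 - 6 * lam) * Real.log X + (1 + ε / 2) * s) with hE
  have hE0 : 0 < E := Real.exp_pos _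
  have hXE : X ^ (5 - 6 * lam) ≤ E := by
    rw [Real.rpow_def_of_pos hX0, hE]
    apply Real.exp_le_exp.mpr
    have : 0 ≤ (1 + ε / 2) * s := by positivity
    linarith
  have hX3E : X ^ 3 ≤ E := by
    refine le_trans ?_ hXE
    rw [← Real.rpow_natCast X 3]
    apply Real.rpow_le_rpow_of_exponent_le hX1
    push_cast
    linarith
  have hsX : 0 < √X := Real.sqrt_pos.mpr hX0
  have hsX2 : √X ^ 2 = X := Real.sq_sqrt hX0.le
  have hsX1 : 1 ≤ √X := by
    rw [Real.one_le_sqrt]; exact hX1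
  have hsXX : √X ≤ X := by nlinarith
  have hsX6 : √X ^ 6 = X ^ 3 := by
    calc √X ^ 6 = (√X ^ 2) ^ 3 := by ring
      _ = X ^ 3 := by rw [hsX2]
  have hA₀X : A₀ ≤ √X := Real.le_sqrt_of_sq_le hXc
  have hD1 : ∀ x ∈ F, 1 ≤ |((Dd x.1 x.2 : ℤ) : ℝ)| := by
    intro x hx
    have := Int.one_le_abs (hF x hx).1.1
    exact_mod_cast this
  -- the parts
  set F0 := F.filter (fun x => x.1 = 0) with hF0
  set F1 := F.filter (fun x => Mx x.1 x.2 ≤ X ^ 3) with hF1
  set Ak : ℕ → ℝ := fun k => 2 * X / 2 ^ k with hAk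
  set Yk : ℕ → ℕ → ℝ := fun k j => Ak k ^ 6 / 2 ^ j with hYk
  set G : ℕ × ℕ → Finset (ℤ × ℤ) := fun q => F.filter (fun x => x.1 ≠ 0 ∧ X ^ 3 < Mx x.1 x.2 ∧
    Ak q.1 ^ 6 ≤ 64 * Mx x.1 x.2 ∧ Mx x.1 x.2 ≤ Ak q.1 ^ 6 ∧
    Yk q.1 q.2 / 2 < |((Dd x.1 x.2 : ℤ) : ℝ)| ∧ |((Dd x.1 x.2 : ℤ) : ℝ)| ≤ Yk q.1 q.2) with hG
  have hAk0 : ∀ k, 0 < Ak k := fun k => by rw [hAk]; positivity
  have hAk2 : ∀ k, Ak k ≤ 2 * X := fun k => by
    rw [hAk]
    exact div_le_self (by positivity) (one_le_pow₀ (by norm_num))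
  have hc0 : (F0.card : ℝ) ≤ 3 * E := by
    have h1 := upg_box 0 (X ^ 3) le_rfl (by positivity) F0 (by
      intro x hx
      rw [hF0, Finset.mem_filter] at hx
      refine ⟨?_, (hF x hx.1).2.2.1⟩
      rw [hx.2]; simp)
    have hX3 : 1 ≤ X ^ 3 := one_le_pow₀ hX1
    nlinarith
  have hc1 : (F1.card : ℝ) ≤ 9 * E := by
    have h1 := upg_box X (X ^ 2) hX0.le (by positivity) F1 (by
      intro x hx
      rw [hF1, Finset.mem_filter] at hx
      have h2 := upg_size (A := √X) hsX.le (a := x.1) (b := x.2) (by rw [hsX6]; exact hx.2)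
      refine ⟨by rw [hsX2] at h2; exact h2.1, h2.2.trans ?_⟩
      calc √X ^ 3 = √X ^ 2 * √X := by ring
        _ = X * √X := by rw [hsX2]
        _ ≤ X * X := by nlinarith
        _ = X ^ 2 := by ring)
    have hX2 : 1 ≤ X ^ 2 := one_le_pow₀ hX1
    have h3 : (2 * X + 1) * (2 * X ^ 2 + 1) ≤ 9 * X ^ 3 := by
      have h4 : 2 * X + 1 ≤ 3 * X := by linarith
      have h5 : 2 * X ^ 2 + 1 ≤ 3 * X ^ 2 := by linarith
      calc (2 * X + 1) * (2 * X ^ 2 + 1) ≤ (3 * X) * (3 * X ^ 2) :=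
            mul_le_mul h4 h5 (by positivity) (by positivity)
        _ = 9 * X ^ 3 := by ring
    linarith
  have hGc : ∀ q, ((G q).card : ℝ) ≤ 32 * c₁ * E := by
    intro q
    by_cases hne : (G q).Nonempty
    · obtain ⟨x₀, hx₀⟩ := hne
      rw [hG, Finset.mem_filter] at hx₀
      obtain ⟨hx₀F, -, g1, -, g2, -, g3⟩ := hx₀
      have hAs : √X ≤ Ak q.1 := by
        refine le_of_pow_le_pow_left₀ (n := 6) (by norm_num) (hAk0 _).le ?_
        rw [hsX6]
        linarith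
      have hY1 : 1 ≤ Yk q.1 q.2 := (hD1 x₀ hx₀F).trans g3
      have hYA : Yk q.1 q.2 ≤ Ak q.1 ^ 6 := by
        rw [hYk]
        exact div_le_self (by have := hAk0 q.1; positivity) (one_le_pow₀ (by norm_num))
      have h1 := hblk (Ak q.1) (Yk q.1 q.2) (G q) (hA₀X.trans hAs) hY1 hYA (by
        intro x hx
        rw [hG, Finset.mem_filter] at hx
        obtain ⟨hxF, k0, k1, k2, k3, k4, k5⟩ := hx
        obtain ⟨m1, m2, m3, n, m4, m5, m6⟩ := hF x hxF
        have h2 := upg_size (hAk0 q.1).le k3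
        refine ⟨k0, m1, ⟨h2.1, h2.2, k2, k5⟩, k4, n, m4, m5, m6.trans ?_⟩
        have h3 : 0 ≤ Mx x.1 x.2 := by
          have : 0 < X ^ 3 := by positivity
          linarith
        have h4 : Mx x.1 x.2 ^ (1 - lam) ≤ (Ak q.1 ^ 6) ^ (1 - lam) :=
          Real.rpow_le_rpow h3 k3 (by linarith)
        exact mul_le_mul_of_nonneg_left h4 (by positivity))
      have h2 := hcomp X (Ak q.1) hXa hAs (hAk2 _)
      calc ((G q).card : ℝ) ≤ c₁ * _ := h1
        _ ≤ c₁ * (32 * E) := mul_le_mul_of_nonneg_left h2 hc₁.le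
        _ = 32 * c₁ * E := by ring
    · rw [Finset.not_nonempty_iff_eq_empty] at hne
      rw [hne]
      simp only [Finset.card_empty, Nat.cast_zero]
      positivity
  have hlogX : 3 ≤ Real.log X := by
    rw [Real.le_log_iff_exp_le hX0]
    have h1 := Real.exp_one_lt_d9
    have h2 : Real.exp 3 = Real.exp 1 ^ 3 := by rw [← Real.exp_nat_mul]; norm_num
    rw [h2]
    have h3 : Real.exp 1 ^ 3 ≤ 2.72 ^ 3 := pow_le_pow_left₀ (Real.exp_pos _).le (by linarith) 3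
    norm_num at h3
    linarith
  set K₀ : ℕ := ⌊11 * Real.log X⌋₊ with hK₀
  have hKle : (K₀ : ℝ) ≤ 11 * Real.log X := Nat.floor_le (by positivity)
  have hpow : ∀ k : ℕ, (2 : ℝ) ^ k ≤ 64 * X ^ 6 → k ≤ K₀ := by
    intro k h5
    rw [hK₀]
    apply Nat.le_floor
    have h2k : (0 : ℝ) < 2 ^ k := by positivity
    have h6 : Real.log ((2 : ℝ) ^ k) ≤ Real.log (64 * X ^ 6) :=
      Real.log_le_log h2k h5
    rw [Real.log_pow, Real.log_mul (by norm_num) (by positivity), Real.log_pow] at h6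
    have h7 : Real.log 64 = 6 * Real.log 2 := by
      rw [show (64 : ℝ) = 2 ^ 6 by norm_num, Real.log_pow]; push_cast; ring
    have h8 := Real.log_two_gt_d9
    have h8' := Real.log_two_lt_d9
    push_cast at h6
    have h9 : (k : ℝ) * 0.6931471803 ≤ k * Real.log 2 :=
      mul_le_mul_of_nonneg_left h8.le (by positivity)
    rw [h7] at h6
    nlinarith
  have hcov : F ⊆ F0 ∪ F1 ∪ (range (K₀ + 1) ×ˢ range (K₀ + 1)).biUnion G := by
    intro x hx
    rw [Finset.mem_union, Finset.mem_union]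
    by_cases hx0 : x.1 = 0
    · left; left
      rw [hF0, Finset.mem_filter]
      exact ⟨hx, hx0⟩
    by_cases hxs : Mx x.1 x.2 ≤ X ^ 3
    · left; right
      rw [hF1, Finset.mem_filter]
      exact ⟨hx, hxs⟩
    right
    push Not at hxs
    obtain ⟨hM, ha, hb', -⟩ := hF x hx
    have hMu := upg_mx ha hb'
    have hM1 : 1 ≤ Mx x.1 x.2 := (hD1 x hx).trans (le_max_right _ _)
    have hM0 : 0 < Mx x.1 x.2 := by linarith
    have hDM : |((Dd x.1 x.2 : ℤ) : ℝ)| ≤ Mx x.1 x.2 := le_max_right _ _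
    have hD0 : 0 < |((Dd x.1 x.2 : ℤ) : ℝ)| := by
      have := hD1 x hx
      linarith
    obtain ⟨k, hk1, hk2⟩ := exists_nat_pow_near (x := 64 * X ^ 6 / Mx x.1 x.2)
      (y := 64) (by rw [le_div_iff₀ hM0]; linarith) (by norm_num)
    have hAk6 : Ak k ^ 6 = 64 * X ^ 6 / 64 ^ k := by
      simp only [hAk]
      rw [div_pow, mul_pow, ← pow_mul, mul_comm k 6, pow_mul]
      norm_num
    have h64k : (0 : ℝ) < 64 ^ k := by positivity
    have hk3 : Mx x.1 x.2 ≤ Ak k ^ 6 := by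
      rw [hAk6, le_div_iff₀ h64k]
      rw [le_div_iff₀ hM0] at hk1
      linarith
    have hk4 : Ak k ^ 6 ≤ 64 * Mx x.1 x.2 := by
      rw [hAk6, div_le_iff₀ h64k]
      have h64 : (64 : ℝ) ^ (k + 1) = 64 ^ k * 64 := pow_succ _ _
      rw [div_lt_iff₀ hM0, h64] at hk2
      linarith
    obtain ⟨j, hj1, hj2⟩ := exists_nat_pow_near (x := Ak k ^ 6 / |((Dd x.1 x.2 : ℤ) : ℝ)|)
      (y := 2) (by rw [le_div_iff₀ hD0]; linarith) (by norm_num)
    have h2j : (0 : ℝ) < 2 ^ j := by positivity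
    rw [Finset.mem_biUnion]
    refine ⟨(k, j), ?_, ?_⟩
    · rw [Finset.mem_product, Finset.mem_range, Finset.mem_range, Nat.lt_succ_iff, Nat.lt_succ_iff]
      refine ⟨hpow k ?_, hpow j ?_⟩
      · calc (2 : ℝ) ^ k ≤ 64 ^ k := pow_le_pow_left₀ (by norm_num) (by norm_num) k
          _ ≤ 64 * X ^ 6 / Mx x.1 x.2 := hk1
          _ ≤ 64 * X ^ 6 := div_le_self (by positivity) hM1
      · calc (2 : ℝ) ^ j ≤ Ak k ^ 6 / |((Dd x.1 x.2 : ℤ) : ℝ)| := hj1
          _ ≤ Ak k ^ 6 := div_le_self (by have := hAk0 k; positivity) (hD1 x hx)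
          _ ≤ 64 * X ^ 6 := by
              rw [hAk6]
              exact div_le_self (by positivity) (one_le_pow₀ (by norm_num))
    · rw [hG, Finset.mem_filter]
      refine ⟨hx, hx0, hxs, hk4, hk3, ?_, ?_⟩
      · simp only [hYk]
        rw [div_lt_iff₀ hD0] at hj2
        rw [div_div, div_lt_iff₀ (by positivity)]
        calc Ak k ^ 6 < 2 ^ (j + 1) * |((Dd x.1 x.2 : ℤ) : ℝ)| := hj2
          _ = |((Dd x.1 x.2 : ℤ) : ℝ)| * (2 ^ j * 2) := by ring
      · simp only [hYk]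
        rw [le_div_iff₀ hD0] at hj1
        rw [le_div_iff₀ h2j]
        linarith
  have hc2 : (((range (K₀ + 1) ×ˢ range (K₀ + 1)).biUnion G).card : ℝ) ≤
      4608 * c₁ * Real.log X ^ 2 * E := by
    have hcc : (((range (K₀ + 1) ×ˢ range (K₀ + 1)).card : ℕ) : ℝ) = ((K₀ : ℝ) + 1) ^ 2 := by
      rw [Finset.card_product, Finset.card_range]
      push_cast
      ring
    have hK12 : ((K₀ : ℝ) + 1) ^ 2 ≤ (12 * Real.log X) ^ 2 :=
      pow_le_pow_left₀ (by positivity) (by linarith) 2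
    calc (((range (K₀ + 1) ×ˢ range (K₀ + 1)).biUnion G).card : ℝ) ≤
          ((∑ q ∈ range (K₀ + 1) ×ˢ range (K₀ + 1), (G q).card : ℕ) : ℝ) := by
          exact_mod_cast Finset.card_biUnion_le
      _ = ∑ q ∈ range (K₀ + 1) ×ˢ range (K₀ + 1), ((G q).card : ℝ) := by push_cast; rfl
      _ ≤ ∑ q ∈ range (K₀ + 1) ×ˢ range (K₀ + 1), 32 * c₁ * E :=
          Finset.sum_le_sum (fun q _ => hGc q)
      _ = ((K₀ : ℝ) + 1) ^ 2 * (32 * c₁ * E) := by
          rw [Finset.sum_const, nsmul_eq_mul, hcc]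
      _ ≤ (12 * Real.log X) ^ 2 * (32 * c₁ * E) :=
          mul_le_mul_of_nonneg_right hK12 (by positivity)
      _ = 4608 * c₁ * Real.log X ^ 2 * E := by ring
  have hcard : (F.card : ℝ) ≤ F0.card + F1.card +
      ((range (K₀ + 1) ×ˢ range (K₀ + 1)).biUnion G).card := by
    have h1 := (Finset.card_le_card hcov).trans (Finset.card_union_le _ _)
    have h2 := Finset.card_union_le F0 F1
    have h3 : F.card ≤ F0.card + F1.card + ((range (K₀ + 1) ×ˢ range (K₀ + 1)).biUnion G).card := by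
      omega
    exact_mod_cast h3
  have hL2 : 1 ≤ Real.log X ^ 2 := one_le_pow₀ (by linarith)
  have hbig : c₂ * Real.log X ^ 2 ≤ Real.exp (ε / 2 * s) := by
    have h1 : (c₂ + 60 * Real.log X) ^ 3 ≤ Real.exp (ε / 6 * s) ^ 3 :=
      pow_le_pow_left₀ (by positivity) has 3
    have h2 : Real.exp (ε / 6 * s) ^ 3 = Real.exp (ε / 2 * s) := by
      rw [← Real.exp_nat_mul]; congr 1; push_cast; ring
    rw [h2] at h1
    refine le_trans ?_ h1
    have h3 : 0 ≤ Real.log X := by linarith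
    have h4 : c₂ * Real.log X ^ 2 ≤ (c₂ + 60 * Real.log X) * (c₂ + 60 * Real.log X) ^ 2 := by
      apply mul_le_mul (by linarith) _ (by positivity) (by positivity)
      exact pow_le_pow_left₀ h3 (by linarith) 2
    calc c₂ * Real.log X ^ 2 ≤ _ := h4
      _ = (c₂ + 60 * Real.log X) ^ 3 := by ring
  calc (F.card : ℝ) ≤ (12 + 4608 * c₁ * Real.log X ^ 2) * E := by linarith
    _ ≤ c₂ * Real.log X ^ 2 * E := by
        apply mul_le_mul_of_nonneg_right _ hE0.le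
        rw [hc₂]
        nlinarith
    _ ≤ Real.exp (ε / 2 * s) * E := mul_le_mul_of_nonneg_right hbig hE0.le
    _ = Real.exp ((5 - 6 * lam) * Real.log X + (1 + ε) * s) := by
        rw [hE, ← Real.exp_add]
        congr 1
        ring

end Pool.Agent.N692.FH
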