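import Mathlib

/-!
# The bound of Mertens type and the bound for the summatory function of Liouville's function

The subtask GX/LM of helper964.
-/

set_option autoImplicit false

namespace Pool.Agent.N692.GXLM

open Finset

noncomputable def Mx (x : ℝ) : ℝ := ∑ n ∈ Finset.Icc 1 ⌊x⌋₊, ((ArithmeticFunction.moebius n : ℤ) : ℝ)
noncomputable def Lx (x : ℝ) : ℝ := ∑ n ∈ Finset.Icc 1 ⌊x⌋₊, (-1 : ℝ) ^ (ArithmeticFunction.cardFactors n)
noncomputable def Q (x : ℝ) : ℝ := Real.sqrt (Real.log x) / Real.log (Real.log x)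

/-! ### the identities -/

theorem dvd_of_sq {a b d : ℕ} (ha : Squarefree a) (hb : b ≠ 0) (h : d ^ 2 ∣ b ^ 2 * a) : d ∣ b := by
  have ha0 : a ≠ 0 := ha.ne_zero
  have hn0 : b ^ 2 * a ≠ 0 := mul_ne_zero (pow_ne_zero 2 hb) ha0
  have hd0 : d ≠ 0 := by
    rintro rfl
    rw [zero_pow two_ne_zero] at h
    exact hn0 (zero_dvd_iff.1 h)
  rw [← Nat.factorization_le_iff_dvd hd0 hb]
  intro p
  have h1 := (Nat.factorization_le_iff_dvd (pow_ne_zero 2 hd0) hn0).2 h p
  rw [Nat.factorization_pow, Nat.factorization_mul (pow_ne_zero 2 hb) ha0,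
    Nat.factorization_pow] at h1
  have h2 : a.factorization p ≤ 1 := ha.natFactorization_le_one p
  simp only [Finsupp.smul_apply, Finsupp.add_apply, smul_eq_mul] at h1
  omega

theorem sq_uniq {a b d k : ℕ} (ha : Squarefree a) (hb : b ≠ 0) (hk : Squarefree k)
    (hd : d ≠ 0) (h : d ^ 2 * k = b ^ 2 * a) : d = b :=
  Nat.dvd_antisymm (dvd_of_sq ha hb ⟨k, h.symm⟩) (dvd_of_sq hk hd ⟨a, h⟩)

theorem card_sq {d k : ℕ} (hd : d ≠ 0) (hk : k ≠ 0) :
    (-1 : ℝ) ^ ArithmeticFunction.cardFactors (d ^ 2 * k) =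
      (-1 : ℝ) ^ ArithmeticFunction.cardFactors k := by
  rw [ArithmeticFunction.cardFactors_mul (pow_ne_zero 2 hd) hk,
    ArithmeticFunction.cardFactors_pow, pow_add, pow_mul, neg_one_sq, one_pow, one_mul]

theorem id1 (N n : ℕ) (h1 : 1 ≤ n) (hN : n ≤ N) :
    ∑ d ∈ (Icc 1 N).filter (fun d => d ^ 2 ∣ n),
      (1 : ℝ) * ((ArithmeticFunction.moebius (n / d ^ 2) : ℤ) : ℝ) =
    (-1 : ℝ) ^ ArithmeticFunction.cardFactors n := by
  obtain ⟨a, b, hab, ha⟩ := Nat.sq_mul_squarefree n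
  have ha0 : a ≠ 0 := ha.ne_zero
  have hb0 : b ≠ 0 := by
    rintro rfl
    rw [zero_pow two_ne_zero, zero_mul] at hab
    omega
  rw [Finset.sum_eq_single b]
  · have e1 : n / b ^ 2 = a := by
      rw [← hab]
      exact Nat.mul_div_cancel_left a (by positivity)
    rw [e1, one_mul, ← hab, card_sq hb0 ha0,
      ArithmeticFunction.moebius_apply_of_squarefree ha]
    push_cast
    rfl
  · intro d hd hdb
    rw [Finset.mem_filter, Finset.mem_Icc] at hd
    obtain ⟨⟨hd1, -⟩, k, hk⟩ := hd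
    have e1 : n / d ^ 2 = k := by
      rw [hk]
      exact Nat.mul_div_cancel_left k (by positivity)
    rw [e1, ArithmeticFunction.moebius_eq_zero_of_not_squarefree]
    · simp
    · intro hsq
      exact hdb (sq_uniq ha hb0 hsq (by omega) (by rw [← hk, hab]))
  · intro hb
    exfalso
    apply hb
    rw [Finset.mem_filter, Finset.mem_Icc]
    refine ⟨⟨by omega, ?_⟩, ⟨a, hab.symm⟩⟩
    calc b ≤ b ^ 2 * a := by
          have h2 : b * 1 ≤ b * (b * a) :=
            Nat.mul_le_mul_left b (Nat.one_le_iff_ne_zero.2 (mul_ne_zero hb0 ha0))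
          calc b = b * 1 := (mul_one b).symm
            _ ≤ b * (b * a) := h2
            _ = b ^ 2 * a := by ring
      _ = n := hab
      _ ≤ N := hN

theorem id2 (N n : ℕ) (h1 : 1 ≤ n) (hN : n ≤ N) :
    ∑ d ∈ (Icc 1 N).filter (fun d => d ^ 2 ∣ n),
      ((ArithmeticFunction.moebius d : ℤ) : ℝ) *
        (-1 : ℝ) ^ ArithmeticFunction.cardFactors (n / d ^ 2) =
    ((ArithmeticFunction.moebius n : ℤ) : ℝ) := by
  obtain ⟨a, b, hab, ha⟩ := Nat.sq_mul_squarefree n
  have ha0 : a ≠ 0 := ha.ne_zero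
  have hb0 : b ≠ 0 := by
    rintro rfl
    rw [zero_pow two_ne_zero, zero_mul] at hab
    omega
  have hbn : b ≤ N := by
    calc b ≤ b ^ 2 * a := by
          have h2 : b * 1 ≤ b * (b * a) :=
            Nat.mul_le_mul_left b (Nat.one_le_iff_ne_zero.2 (mul_ne_zero hb0 ha0))
          calc b = b * 1 := (mul_one b).symm
            _ ≤ b * (b * a) := h2
            _ = b ^ 2 * a := by ring
      _ = n := hab
      _ ≤ N := hN
  have hset : (Icc 1 N).filter (fun d => d ^ 2 ∣ n) = b.divisors := by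
    ext d
    rw [Finset.mem_filter, Finset.mem_Icc, Nat.mem_divisors]
    constructor
    · rintro ⟨-, h⟩
      exact ⟨dvd_of_sq ha hb0 (by rw [hab]; exact h), hb0⟩
    · rintro ⟨h, -⟩
      have hd0 : d ≠ 0 := ne_zero_of_dvd_ne_zero hb0 h
      refine ⟨⟨Nat.one_le_iff_ne_zero.2 hd0, (Nat.le_of_dvd (Nat.pos_of_ne_zero hb0) h).trans hbn⟩, ?_⟩
      rw [← hab]
      exact Dvd.dvd.mul_right (pow_dvd_pow_of_dvd h 2) a
  have hterm : ∀ d ∈ (Icc 1 N).filter (fun d => d ^ 2 ∣ n),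
      ((ArithmeticFunction.moebius d : ℤ) : ℝ) *
        (-1 : ℝ) ^ ArithmeticFunction.cardFactors (n / d ^ 2) =
      ((ArithmeticFunction.moebius d : ℤ) : ℝ) * (-1 : ℝ) ^ ArithmeticFunction.cardFactors n := by
    intro d hd
    rw [Finset.mem_filter, Finset.mem_Icc] at hd
    obtain ⟨⟨hd1, -⟩, k, hk⟩ := hd
    have hk0 : k ≠ 0 := by
      rintro rfl
      rw [mul_zero] at hk
      omega
    have e1 : n / d ^ 2 = k := by
      rw [hk]
      exact Nat.mul_div_cancel_left k (by positivity)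
    rw [e1, hk, card_sq (by omega) hk0]
  rw [Finset.sum_congr rfl hterm, ← Finset.sum_mul, hset]
  have hmu : ∑ d ∈ b.divisors, ((ArithmeticFunction.moebius d : ℤ) : ℝ) =
      if b = 1 then 1 else 0 := by
    have h2 : ((ArithmeticFunction.moebius * (ArithmeticFunction.zeta :
        ArithmeticFunction ℕ) : ArithmeticFunction ℤ)) b =
        ∑ d ∈ b.divisors, ArithmeticFunction.moebius d :=
      ArithmeticFunction.coe_mul_zeta_apply
    rw [ArithmeticFunction.moebius_mul_coe_zeta, ArithmeticFunction.one_apply] at h2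
    rw [← Int.cast_sum, ← h2]
    split_ifs <;> simp
  rw [hmu]
  split_ifs with hb1
  · subst hb1
    rw [one_pow, one_mul] at hab
    rw [one_mul, ← hab, ArithmeticFunction.moebius_apply_of_squarefree ha]
    push_cast
    rfl
  · rw [zero_mul, ArithmeticFunction.moebius_eq_zero_of_not_squarefree]
    · simp
    · intro hsq
      apply hb1
      have h3 := hsq b ⟨a, by rw [← hab]; ring⟩
      exact Nat.isUnit_iff.1 h3

theorem dbl (a e b : ℕ → ℝ)
    (h : ∀ N n, 1 ≤ n → n ≤ N →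
      ∑ d ∈ (Icc 1 N).filter (fun d => d ^ 2 ∣ n), e d * a (n / d ^ 2) = b n) (x : ℝ) :
    ∑ n ∈ Icc 1 ⌊x⌋₊, b n =
      ∑ d ∈ Icc 1 ⌊x⌋₊, e d * ∑ m ∈ Icc 1 ⌊x / (d : ℝ) ^ 2⌋₊, a m := by
  set N := ⌊x⌋₊ with hN
  have h1 : ∀ n ∈ Icc 1 N, b n = ∑ d ∈ Icc 1 N, if d ^ 2 ∣ n then e d * a (n / d ^ 2) else 0 := by
    intro n hn
    rw [Finset.mem_Icc] at hn
    rw [← h N n hn.1 hn.2, Finset.sum_filter]
  rw [Finset.sum_congr rfl h1, Finset.sum_comm]
  refine Finset.sum_congr rfl fun d hd => ?_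
  rw [Finset.mem_Icc] at hd
  have hd0 : 0 < d ^ 2 := by
    have : 0 < d := hd.1
    positivity
  have hfl : ⌊x / (d : ℝ) ^ 2⌋₊ = N / d ^ 2 := by
    have := Nat.floor_div_natCast x (d ^ 2)
    push_cast at this
    rw [this]
  rw [hfl, ← Finset.sum_filter, Finset.mul_sum]
  symm
  refine Finset.sum_nbij' (fun m => d ^ 2 * m) (fun n => n / d ^ 2) ?_ ?_ ?_ ?_ ?_
  · intro m hm
    rw [Finset.mem_Icc] at hm
    rw [Finset.mem_filter, Finset.mem_Icc]
    refine ⟨⟨?_, ?_⟩, dvd_mul_right _ _⟩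
    · exact Nat.mul_pos hd0 hm.1
    · calc d ^ 2 * m ≤ d ^ 2 * (N / d ^ 2) := Nat.mul_le_mul_left _ hm.2
        _ ≤ N := Nat.mul_div_le _ _
  · intro n hn
    rw [Finset.mem_filter, Finset.mem_Icc] at hn
    rw [Finset.mem_Icc]
    refine ⟨?_, Nat.div_le_div_right hn.1.2⟩
    rw [Nat.one_le_div_iff hd0]
    exact Nat.le_of_dvd hn.1.1 hn.2
  · intro m _
    exact Nat.mul_div_cancel_left m hd0
  · intro n hn
    rw [Finset.mem_filter] at hn
    exact Nat.mul_div_cancel' hn.2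
  · intro m _
    rw [Nat.mul_div_cancel_left m hd0]

/-! ### the function `Q` -/

theorem one_lt_log3 : 1 < Real.log 3 := by
  rw [Real.lt_log_iff_exp_lt (by norm_num)]
  have := Real.exp_one_lt_d9
  linarith

theorem logs {x : ℝ} (hx : 3 ≤ x) : 1 < Real.log x ∧ Real.log 3 ≤ Real.log x ∧
    0 < Real.log (Real.log 3) ∧ Real.log (Real.log 3) ≤ Real.log (Real.log x) := by
  have h1 : Real.log 3 ≤ Real.log x := Real.log_le_log (by norm_num) hx
  have h2 := one_lt_log3
  exact ⟨by linarith, h1, Real.log_pos h2, Real.log_le_log (by linarith) h1⟩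

theorem Q_nonneg {x : ℝ} (hx : 3 ≤ x) : 0 ≤ Q x := by
  obtain ⟨h1, h2, h3, h4⟩ := logs hx
  exact div_nonneg (Real.sqrt_nonneg _) (by linarith)

/-- the constant -/
noncomputable def KQ : ℝ := 1 + 2 / Real.log (Real.log 3)

theorem KQ_pos : 0 < KQ := by
  have := (logs (le_refl (3 : ℝ))).2.2.1
  unfold KQ
  positivity

theorem Q_mono {x y : ℝ} (hy : 3 ≤ y) (hxy : y ≤ x) : Q y ≤ KQ * Q x := by
  obtain ⟨h1, h2, h3, h4⟩ := logs hy
  obtain ⟨h1', h2', -, h4'⟩ := logs (hy.trans hxy)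
  have h5 : Real.log y ≤ Real.log x := Real.log_le_log (by linarith) hxy
  set l := Real.log y
  set L := Real.log x
  have hl0 : 0 < l := by linarith
  have hL0 : 0 < L := by linarith
  have hll : 0 < Real.log l := by linarith
  have hlL : 0 < Real.log L := by linarith
  have hsl : 0 < √l := Real.sqrt_pos.2 hl0
  have hsL : 0 < √L := Real.sqrt_pos.2 hL0
  have hs : √l ≤ √L := Real.sqrt_le_sqrt h5
  -- the logarithm of the quotient
  have h6 : √l * (Real.log L - Real.log l) ≤ 2 * √L := by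
    have e1 : Real.log L - Real.log l = 2 * Real.log (√L / √l) := by
      rw [Real.log_div hsL.ne' hsl.ne', Real.log_sqrt hL0.le, Real.log_sqrt hl0.le]
      ring
    have e2 : Real.log (√L / √l) ≤ √L / √l := by
      have := Real.log_le_sub_one_of_pos (div_pos hsL hsl)
      linarith
    rw [e1]
    calc √l * (2 * Real.log (√L / √l)) ≤ √l * (2 * (√L / √l)) := by gcongr
      _ = 2 * √L := by field_simp
  have h7 : √l * Real.log L ≤ (1 + 2 / Real.log (Real.log 3)) * √L * Real.log l := by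
    have e1 : √l * Real.log L = √l * Real.log l + √l * (Real.log L - Real.log l) := by ring
    have e2 : √l * Real.log l ≤ √L * Real.log l := mul_le_mul_of_nonneg_right hs hll.le
    have e3 : 2 * √L ≤ 2 / Real.log (Real.log 3) * √L * Real.log l := by
      have e4 : 2 / Real.log (Real.log 3) * √L * Real.log l =
          2 * √L * (Real.log l / Real.log (Real.log 3)) := by ring
      rw [e4]
      have e5 : 1 ≤ Real.log l / Real.log (Real.log 3) := by rwa [one_le_div h3]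
      exact le_mul_of_one_le_right (by positivity) e5
    have e6 : (1 + 2 / Real.log (Real.log 3)) * √L * Real.log l =
      √L * Real.log l + 2 / Real.log (Real.log 3) * √L * Real.log l := by ring
    rw [e1, e6]
    linarith
  show √l / Real.log l ≤ KQ * (√L / Real.log L)
  rw [div_le_iff₀ hll]
  have e7 : KQ * (√L / Real.log L) * Real.log l = (KQ * √L * Real.log l) / Real.log L := by ring
  rw [e7, le_div_iff₀ hlL]
  exact h7

theorem log_le_exp {x : ℝ} (hx : 3 ≤ x) : 2 * (1 + Real.log x) ≤ Real.exp (24 * Q x) := by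
  obtain ⟨h1, h2, h3, h4⟩ := logs hx
  show _ ≤ Real.exp (24 * (√(Real.log x) / Real.log (Real.log x)))
  set L := Real.log x
  have hL0 : 0 < L := by linarith
  have hlL : 0 < Real.log L := by linarith
  set t := √(√L) with ht
  have hs1 : 1 ≤ √L := by rw [Real.one_le_sqrt]; exact h1.le
  have ht1 : 1 ≤ t := by rw [ht, Real.one_le_sqrt]; exact hs1
  have ht2 : t ^ 2 = √L := Real.sq_sqrt (Real.sqrt_nonneg _)
  have hlt : Real.log L = 4 * Real.log t := by
    rw [ht, Real.log_sqrt (Real.sqrt_nonneg _), Real.log_sqrt hL0.le]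
    ring
  have hlt2 : Real.log t ≤ t := by
    have := Real.log_le_sub_one_of_pos (by linarith : 0 < t)
    linarith
  have h5 : Real.log (2 * (1 + L)) ≤ 6 * t := by
    have e1 : Real.log (2 * (1 + L)) ≤ Real.log (4 * L) :=
      Real.log_le_log (by linarith) (by linarith)
    rw [Real.log_mul (by norm_num) hL0.ne', hlt] at e1
    have e2 : Real.log 4 ≤ 2 := by
      rw [Real.log_le_iff_le_exp (by norm_num)]
      have e3 : Real.exp 2 = Real.exp 1 ^ 2 := by
        rw [← Real.exp_nat_mul]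
        norm_num
      rw [e3]
      have := Real.exp_one_gt_d9
      nlinarith
    linarith
  rw [← Real.log_le_iff_le_exp (by linarith)]
  refine h5.trans ?_
  rw [← mul_div_assoc, le_div_iff₀ hlL, hlt, ← ht2]
  nlinarith

/-! ### the transfer -/

theorem transfer (a e : ℕ → ℝ) (ha : ∀ n, |a n| ≤ 1) (he : ∀ n, |e n| ≤ 1) (C : ℝ)
    (hf : ∀ y : ℝ, 3 ≤ y → |∑ n ∈ Icc 1 ⌊y⌋₊, a n| ≤ Real.sqrt y * Real.exp (C * Q y))
    (x : ℝ) (hx : 3 ≤ x) :
    |∑ d ∈ Icc 1 ⌊x⌋₊, e d * ∑ m ∈ Icc 1 ⌊x / (d : ℝ) ^ 2⌋₊, a m| ≤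
      Real.sqrt x * Real.exp ((|C| * KQ + 24) * Q x) := by
  have hQ := Q_nonneg hx
  have hK := KQ_pos
  set E := Real.exp (|C| * KQ * Q x) with hE
  have hE1 : 1 ≤ E := Real.one_le_exp (by positivity)
  have hx0 : 0 < x := by linarith
  have hterm : ∀ d ∈ Icc 1 ⌊x⌋₊, |e d * ∑ m ∈ Icc 1 ⌊x / (d : ℝ) ^ 2⌋₊, a m| ≤
      2 * √x * E * (d : ℝ)⁻¹ := by
    intro d hd
    rw [Finset.mem_Icc] at hd
    have hd0 : (0 : ℝ) < d := by exact_mod_cast hd.1
    have hd1 : (1 : ℝ) ≤ d := by exact_mod_cast hd.1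
    set y := x / (d : ℝ) ^ 2 with hy
    have hy0 : 0 < y := by positivity
    have hsy : √y = √x * (d : ℝ)⁻¹ := by
      rw [hy, Real.sqrt_div hx0.le, Real.sqrt_sq hd0.le]
      rfl
    have hsy0 : 0 ≤ √y := Real.sqrt_nonneg _
    rw [abs_mul]
    have h1 : |∑ m ∈ Icc 1 ⌊y⌋₊, a m| ≤ 2 * √y * E := by
      rcases lt_or_ge y 3 with h3 | h3
      · rcases lt_or_ge y 1 with h1 | h1
        · have : ⌊y⌋₊ = 0 := Nat.floor_eq_zero.2 h1
          rw [this]
          simp only [Finset.Icc_eq_empty (by norm_num : ¬ (1 ≤ 0)), Finset.sum_empty, abs_zero]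
          positivity
        · have h4 : |∑ m ∈ Icc 1 ⌊y⌋₊, a m| ≤ y := by
            refine (Finset.abs_sum_le_sum_abs _ _).trans ?_
            refine (Finset.sum_le_card_nsmul _ _ 1 fun m _ => ha m).trans ?_
            rw [Nat.card_Icc, nsmul_eq_mul, mul_one, Nat.add_sub_cancel]
            exact Nat.floor_le hy0.le
          have h5 : y ≤ 2 * √y := by
            have e1 : √y ≤ 2 := by
              rw [Real.sqrt_le_iff]
              constructor <;> linarith
            calc y = √y * √y := (Real.mul_self_sqrt hy0.le).symm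
              _ ≤ 2 * √y := mul_le_mul_of_nonneg_right e1 hsy0
          calc _ ≤ y := h4
            _ ≤ 2 * √y := h5
            _ ≤ 2 * √y * E := le_mul_of_one_le_right (by positivity) hE1
      · have hyx : y ≤ x := by
          rw [hy]
          exact div_le_self hx0.le (one_le_pow₀ hd1)
        refine (hf y h3).trans ?_
        have h4 : Real.exp (C * Q y) ≤ E := by
          rw [hE]
          apply Real.exp_le_exp.2
          calc C * Q y ≤ |C| * Q y := mul_le_mul_of_nonneg_right (le_abs_self C) (Q_nonneg h3)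
            _ ≤ |C| * (KQ * Q x) := mul_le_mul_of_nonneg_left (Q_mono h3 hyx) (abs_nonneg C)
            _ = |C| * KQ * Q x := by ring
        calc √y * Real.exp (C * Q y) ≤ √y * E := mul_le_mul_of_nonneg_left h4 hsy0
          _ ≤ 2 * √y * E := by
            have : 0 ≤ √y * E := by positivity
            linarith
    calc |e d| * |∑ m ∈ Icc 1 ⌊y⌋₊, a m| ≤ 1 * (2 * √y * E) :=
          mul_le_mul (he d) h1 (abs_nonneg _) zero_le_one
      _ = 2 * √x * E * (d : ℝ)⁻¹ := by rw [hsy]; ring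
  have hharm : ∑ d ∈ Icc 1 ⌊x⌋₊, (d : ℝ)⁻¹ ≤ 1 + Real.log x := by
    have h1 := harmonic_le_one_add_log ⌊x⌋₊
    rw [harmonic_eq_sum_Icc] at h1
    push_cast at h1
    refine h1.trans ?_
    have h2 : Real.log (⌊x⌋₊ : ℝ) ≤ Real.log x := by
      have h3 : 0 < ⌊x⌋₊ := Nat.floor_pos.2 (by linarith)
      exact Real.log_le_log (by exact_mod_cast h3) (Nat.floor_le hx0.le)
    linarith
  calc _ ≤ ∑ d ∈ Icc 1 ⌊x⌋₊, |e d * ∑ m ∈ Icc 1 ⌊x / (d : ℝ) ^ 2⌋₊, a m| :=
        Finset.abs_sum_le_sum_abs _ _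
    _ ≤ ∑ d ∈ Icc 1 ⌊x⌋₊, 2 * √x * E * (d : ℝ)⁻¹ := Finset.sum_le_sum hterm
    _ = 2 * √x * E * ∑ d ∈ Icc 1 ⌊x⌋₊, (d : ℝ)⁻¹ := by rw [Finset.mul_sum]
    _ ≤ 2 * √x * E * (1 + Real.log x) := mul_le_mul_of_nonneg_left hharm (by positivity)
    _ = √x * E * (2 * (1 + Real.log x)) := by ring
    _ ≤ √x * E * Real.exp (24 * Q x) := mul_le_mul_of_nonneg_left (log_le_exp hx) (by positivity)
    _ = _ := by
        rw [mul_assoc, hE, ← Real.exp_add]
        congr 2
        ring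

/-- the bound of Mertens type holds if and only if it holds for Liouville's function -/
theorem lm : (∃ C : ℝ, ∀ x : ℝ, 3 ≤ x → |Mx x| ≤ Real.sqrt x * Real.exp (C * Q x)) ↔
    (∃ C : ℝ, ∀ x : ℝ, 3 ≤ x → |Lx x| ≤ Real.sqrt x * Real.exp (C * Q x)) := by
  have hmu : ∀ n : ℕ, |((ArithmeticFunction.moebius n : ℤ) : ℝ)| ≤ 1 := by
    intro n
    have := ArithmeticFunction.abs_moebius_le_one (n := n)
    exact_mod_cast this
  have hli : ∀ n : ℕ, |(-1 : ℝ) ^ ArithmeticFunction.cardFactors n| ≤ 1 := by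
    intro n
    rw [abs_pow, abs_neg, abs_one, one_pow]
  constructor
  · rintro ⟨C, hC⟩
    refine ⟨|C| * KQ + 24, fun x hx => ?_⟩
    have h1 := transfer (fun n => ((ArithmeticFunction.moebius n : ℤ) : ℝ)) (fun _ => 1) hmu
      (fun _ => by simp) C hC x hx
    have h2 := dbl (fun n => ((ArithmeticFunction.moebius n : ℤ) : ℝ)) (fun _ => 1) _ id1 x
    unfold Lx
    rw [h2]
    exact h1
  · rintro ⟨C, hC⟩
    refine ⟨|C| * KQ + 24, fun x hx => ?_⟩
    have h1 := transfer (fun n => (-1 : ℝ) ^ ArithmeticFunction.cardFactors n)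
      (fun n => ((ArithmeticFunction.moebius n : ℤ) : ℝ)) hli hmu C hC x hx
    have h2 := dbl (fun n => (-1 : ℝ) ^ ArithmeticFunction.cardFactors n)
      (fun n => ((ArithmeticFunction.moebius n : ℤ) : ℝ)) _ id2 x
    unfold Mx
    rw [h2]
    exact h1

end Pool.Agent.N692.GXLM
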