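import Mathlib

set_option autoImplicit false

/-!
# No nested sequence of optimal sets for the edge isoperimetric problem in `Cay(ℤ, {1, 6})`
-/

namespace Pool.Agent.N692.Nest

/-- the number of elements `x` of `S` with `x + u ∉ S` -/
def D (S : Finset ℤ) (u : ℤ) : ℕ := (S.filter (fun x => x + u ∉ S)).card

lemma col_le (S : Finset ℤ) : (S.image (fun x => x % 6)).card ≤ D S 6 := by
  apply Finset.card_le_card_of_surjOn (fun x => x % 6)
  intro ρ hρ
  obtain ⟨y, hy, rfl⟩ := Finset.mem_image.mp (Finset.mem_coe.mp hρ)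
  have hF : (S.filter (fun x => x % 6 = y % 6)).Nonempty :=
    ⟨y, Finset.mem_filter.mpr ⟨hy, rfl⟩⟩
  obtain ⟨m, hm, hmax⟩ := Finset.exists_max_image _ id hF
  rw [Finset.mem_filter] at hm
  refine ⟨m, ?_, hm.2⟩
  rw [Finset.mem_coe, Finset.mem_filter]
  refine ⟨hm.1, fun hc => ?_⟩
  have h2 := hmax (m + 6) (Finset.mem_filter.mpr ⟨hc, by have := hm.2; omega⟩)
  simp only [id] at h2
  omega

lemma col_le' (S : Finset ℤ) : (S.image (fun x => x % 6)).card ≤ D S (-6) := by
  apply Finset.card_le_card_of_surjOn (fun x => x % 6)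
  intro ρ hρ
  obtain ⟨y, hy, rfl⟩ := Finset.mem_image.mp (Finset.mem_coe.mp hρ)
  have hF : (S.filter (fun x => x % 6 = y % 6)).Nonempty :=
    ⟨y, Finset.mem_filter.mpr ⟨hy, rfl⟩⟩
  obtain ⟨m, hm, hmin⟩ := Finset.exists_min_image _ id hF
  rw [Finset.mem_filter] at hm
  refine ⟨m, ?_, hm.2⟩
  rw [Finset.mem_coe, Finset.mem_filter]
  refine ⟨hm.1, fun hc => ?_⟩
  have h2 := hmin (m + -6) (Finset.mem_filter.mpr ⟨hc, by have := hm.2; omega⟩)
  simp only [id] at h2
  omega

lemma row_le (S : Finset ℤ) (r : ℤ) (hr : ∀ x ∈ S, x % 6 ≠ r % 6) :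
    (S.image (fun x => (x - r) / 6)).card ≤ D S 1 := by
  apply Finset.card_le_card_of_surjOn (fun x => (x - r) / 6)
  intro ρ hρ
  obtain ⟨y, hy, rfl⟩ := Finset.mem_image.mp (Finset.mem_coe.mp hρ)
  have hF : (S.filter (fun x => (x - r) / 6 = (y - r) / 6)).Nonempty :=
    ⟨y, Finset.mem_filter.mpr ⟨hy, rfl⟩⟩
  obtain ⟨m, hm, hmax⟩ := Finset.exists_max_image _ id hF
  rw [Finset.mem_filter] at hm
  refine ⟨m, ?_, hm.2⟩
  rw [Finset.mem_coe, Finset.mem_filter]
  refine ⟨hm.1, fun hc => ?_⟩
  have h1 := hr _ hc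
  have h2 := hmax (m + 1) (Finset.mem_filter.mpr ⟨hc, by have := hm.2; omega⟩)
  simp only [id] at h2
  omega

lemma row_le' (S : Finset ℤ) (r : ℤ) (hr : ∀ x ∈ S, x % 6 ≠ r % 6) :
    (S.image (fun x => (x - r) / 6)).card ≤ D S (-1) := by
  apply Finset.card_le_card_of_surjOn (fun x => (x - r) / 6)
  intro ρ hρ
  obtain ⟨y, hy, rfl⟩ := Finset.mem_image.mp (Finset.mem_coe.mp hρ)
  have hF : (S.filter (fun x => (x - r) / 6 = (y - r) / 6)).Nonempty :=
    ⟨y, Finset.mem_filter.mpr ⟨hy, rfl⟩⟩
  obtain ⟨m, hm, hmin⟩ := Finset.exists_min_image _ id hF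
  rw [Finset.mem_filter] at hm
  refine ⟨m, ?_, hm.2⟩
  rw [Finset.mem_coe, Finset.mem_filter]
  refine ⟨hm.1, fun hc => ?_⟩
  have h1 := hr _ hc
  have h0 := hr _ hm.1
  have h2 := hmin (m + -1) (Finset.mem_filter.mpr ⟨hc, by have := hm.2; omega⟩)
  simp only [id] at h2
  omega

lemma card_le_mul (S : Finset ℤ) (r : ℤ) :
    S.card ≤ (S.image (fun x => x % 6)).card * (S.image (fun x => (x - r) / 6)).card := by
  rw [← Finset.card_product]
  apply Finset.card_le_card_of_injOn (fun x => (x % 6, (x - r) / 6))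
  · intro x hx
    simp only [Finset.coe_product, Set.mem_prod, Finset.mem_coe, Finset.mem_image]
    exact ⟨⟨x, hx, rfl⟩, ⟨x, hx, rfl⟩⟩
  · intro x _ y _ h
    simp only [Prod.mk.injEq] at h
    omega

lemma res_le (S : Finset ℤ) : (S.image (fun x => x % 6)).card ≤ 6 := by
  have : S.image (fun x => x % 6) ⊆ Finset.Ico 0 6 := by
    intro y hy
    obtain ⟨x, _, rfl⟩ := Finset.mem_image.mp hy
    rw [Finset.mem_Ico]
    omega
  simpa using Finset.card_le_card this

/-- a set that misses a residue class modulo `6` -/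
lemma missing (S : Finset ℤ) (h : (S.image (fun x => x % 6)).card < 6) :
    ∃ r : ℤ, ∀ x ∈ S, x % 6 ≠ r % 6 := by
  by_contra hcon
  push Not at hcon
  have : Finset.Ico (0 : ℤ) 6 ⊆ S.image (fun x => x % 6) := by
    intro r hr
    rw [Finset.mem_Ico] at hr
    obtain ⟨x, hx, hxr⟩ := hcon r
    rw [Finset.mem_image]
    exact ⟨x, hx, by omega⟩
  have := Finset.card_le_card this
  simp at this
  omega

lemma one_le (S : Finset ℤ) (hS : S.Nonempty) : 1 ≤ D S 1 ∧ 1 ≤ D S (-1) := by
  constructor
  · apply Finset.card_pos.mpr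
    obtain ⟨m, hm, hmax⟩ := Finset.exists_max_image S id hS
    refine ⟨m, Finset.mem_filter.mpr ⟨hm, fun hc => ?_⟩⟩
    have := hmax _ hc
    simp only [id] at this
    omega
  · apply Finset.card_pos.mpr
    obtain ⟨m, hm, hmin⟩ := Finset.exists_min_image S id hS
    refine ⟨m, Finset.mem_filter.mpr ⟨hm, fun hc => ?_⟩⟩
    have := hmin _ hc
    simp only [id] at this
    omega

/-- a finite set with only one right end is an interval -/
lemma interval (S : Finset ℤ) (hS : S.Nonempty) (h : D S 1 ≤ 1) :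
    ∃ t : ℤ, ∀ x ∈ S, t ≤ x ∧ x < t + S.card := by
  obtain ⟨t, ht, hmin⟩ := Finset.exists_min_image S id hS
  obtain ⟨m, hm, hmax⟩ := Finset.exists_max_image S id hS
  have hm1 : m ∈ S.filter (fun x => x + 1 ∉ S) := by
    refine Finset.mem_filter.mpr ⟨hm, fun hc => ?_⟩
    have := hmax _ hc
    simp only [id] at this
    omega
  have hone : ∀ x ∈ S, x ≠ m → x + 1 ∈ S := by
    intro x hx hne
    by_contra hc
    have hx1 : x ∈ S.filter (fun x => x + 1 ∉ S) := Finset.mem_filter.mpr ⟨hx, hc⟩
    exact hne (Finset.card_le_one.mp h x hx1 m hm1)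
  have hall : ∀ k : ℕ, t + k ≤ m → t + k ∈ S := by
    intro k
    induction k with
    | zero => intro _; simpa using ht
    | succ k ih =>
      intro hk
      push_cast at hk ⊢
      have h1 := hone (t + k) (ih (by omega)) (by omega)
      rwa [← add_assoc]
  have hsub : Finset.Icc t m ⊆ S := by
    intro x hx
    rw [Finset.mem_Icc] at hx
    have := hall (x - t).toNat (by omega)
    have e : t + ((x - t).toNat : ℤ) = x := by omega
    rwa [e] at this
  have hc := Finset.card_le_card hsub
  rw [Int.card_Icc] at hc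
  refine ⟨t, fun x hx => ?_⟩
  have h1 := hmin x hx
  have h2 := hmax x hx
  simp only [id] at h1 h2
  omega

/-- there are no nested optimal sets with `9` and `13` elements -/
theorem no_nested (A B : Finset ℤ) (hAB : A ⊆ B) (hA : A.card = 9) (hB : B.card = 13)
    (h1 : D A 1 + D A (-1) + D A 6 + D A (-6) ≤ 12)
    (h2 : D B 1 + D B (-1) + D B 6 + D B (-6) ≤ 14) : False := by
  -- `B` is an interval
  have hBn : B.Nonempty := by rw [← Finset.card_pos]; omega
  have hAn : A.Nonempty := by rw [← Finset.card_pos]; omega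
  have hB6 : (B.image (fun x => x % 6)).card = 6 := by
    by_contra hne
    have hle := res_le B
    have hlt : (B.image (fun x => x % 6)).card < 6 := by omega
    obtain ⟨r, hr⟩ := missing B hlt
    have a1 := row_le B r hr
    have a2 := row_le' B r hr
    have a3 := col_le B
    have a4 := col_le' B
    have a5 := card_le_mul B r
    rw [hB] at a5
    generalize (B.image (fun x => x % 6)).card = c at *
    generalize (B.image (fun x => (x - r) / 6)).card = b at *
    have hcb : c + b ≤ 7 := by omega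
    interval_cases c <;> omega
  have a3 := col_le B
  have a4 := col_le' B
  have a5 := one_le B hBn
  obtain ⟨t, ht⟩ := interval B hBn (by omega)
  rw [hB] at ht
  -- `A` hits at least four residue classes
  have hAc : A.card ≤ 2 * (A.image (fun x => x % 6)).card + 1 := by
    have hA1 : A.card ≤ (A.erase (t + 12)).card + 1 := by
      have := Finset.pred_card_le_card_erase (s := A) (a := t + 12)
      omega
    have hA2 : (A.erase (t + 12)).card ≤ 2 * (A.image (fun x => x % 6)).card := by
      have : (A.erase (t + 12)).card ≤ ((A.image (fun x => x % 6)) ×ˢ (Finset.range 2)).card := by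
        apply Finset.card_le_card_of_injOn (fun x => (x % 6, if x < t + 6 then 0 else 1))
        · intro x hx
          have hx' := Finset.mem_of_mem_erase (Finset.mem_coe.mp hx)
          simp only [Finset.coe_product, Set.mem_prod, Finset.mem_coe, Finset.mem_image,
            Finset.mem_range]
          refine ⟨⟨x, hx', rfl⟩, ?_⟩
          split_ifs <;> norm_num
        · intro x hx y hy hxy
          have hx' := Finset.mem_coe.mp hx
          have hy' := Finset.mem_coe.mp hy
          rw [Finset.mem_erase] at hx' hy'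
          have b1 := ht x (hAB hx'.2)
          have b2 := ht y (hAB hy'.2)
          simp only [Prod.mk.injEq] at hxy
          obtain ⟨c1, c2⟩ := hxy
          push_cast at b1 b2
          split_ifs at c2 <;> omega
      rw [Finset.card_product, Finset.card_range] at this
      omega
    omega
  have hA6 : (A.image (fun x => x % 6)).card < 6 := by
    have hle := res_le A
    have c3 := col_le A
    have c4 := col_le' A
    have c5 := one_le A hAn
    omega
  obtain ⟨r, hr⟩ := missing A hA6
  have a1 := row_le A r hr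
  have a2 := row_le' A r hr
  have a3 := col_le A
  have a4 := col_le' A
  have a5 := card_le_mul A r
  rw [hA] at a5 hAc
  generalize (A.image (fun x => x % 6)).card = c at *
  generalize (A.image (fun x => (x - r) / 6)).card = b at *
  have hcb : c + b ≤ 6 := by omega
  interval_cases c <;> omega

/-- the point of `Fin 1 → ℤ` with coordinate `z` -/
def c (z : ℤ) : Fin 1 → ℤ := fun _ => z

lemma c_inj : Function.Injective c := fun x y h => congrFun h 0

lemma c_add (x y : ℤ) : c x + c y = c (x + y) := rfl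

lemma c_neg (x : ℤ) : -c x = c (-x) := rfl

lemma c_eta (f : Fin 1 → ℤ) : c (f 0) = f := by
  funext i
  rw [Subsingleton.elim i 0]
  rfl

lemma mem_c (S : Finset ℤ) (x : ℤ) : c x ∈ S.image c ↔ x ∈ S := by
  rw [Finset.mem_image]
  constructor
  · rintro ⟨y, hy, h⟩
    rwa [← c_inj h]
  · intro h
    exact ⟨x, h, rfl⟩

lemma fiber (S : Finset ℤ) (z : ℤ) :
    ((S.image c).filter (fun f => f + c z ∉ S.image c)).card = D S z := by
  have : (S.image c).filter (fun f => f + c z ∉ S.image c) =
      (S.filter (fun x => x + z ∉ S)).image c := by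
    ext f
    simp only [Finset.mem_filter, Finset.mem_image]
    constructor
    · rintro ⟨⟨x, hx, rfl⟩, h⟩
      refine ⟨x, ⟨hx, fun hc => h ⟨x + z, hc, rfl⟩⟩, rfl⟩
    · rintro ⟨x, ⟨hx, h⟩, rfl⟩
      refine ⟨⟨x, hx, rfl⟩, ?_⟩
      rintro ⟨y, hy, hyx⟩
      rw [c_add] at hyx
      rw [c_inj hyx] at hy
      exact h hy
  rw [this, Finset.card_image_of_injective _ c_inj]
  rfl

/-- the generators `±1, ±6` -/
lemma gens : (({c 1, c 6} : Finset (Fin 1 → ℤ)) ∪
    ({c 1, c 6} : Finset (Fin 1 → ℤ)).image (fun u => -u)) =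
    ({1, 6, -1, -6} : Finset ℤ).image c := by
  decide

theorem bd_eq (S : Finset ℤ) :
    ((S.image c ×ˢ (({c 1, c 6} : Finset (Fin 1 → ℤ)) ∪
      ({c 1, c 6} : Finset (Fin 1 → ℤ)).image (fun u => -u))).filter
        (fun p => p.1 + p.2 ∉ S.image c)).card = D S 1 + D S (-1) + D S 6 + D S (-6) := by
  rw [gens, Finset.card_filter, Finset.sum_product_right,
    Finset.sum_image (fun _ _ _ _ h => c_inj h)]
  have : ∀ z : ℤ, (∑ x ∈ S.image c, if x + c z ∉ S.image c then 1 else 0) = D S z := by
    intro z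
    rw [← fiber, Finset.card_filter]
  simp only [this]
  rw [Finset.sum_insert (by decide), Finset.sum_insert (by decide), Finset.sum_insert (by decide),
    Finset.sum_singleton]
  omega

lemma img_eta (S : Finset (Fin 1 → ℤ)) : (S.image (fun f => f 0)).image c = S := by
  rw [Finset.image_image]
  have : c ∘ (fun f : Fin 1 → ℤ => f 0) = id := by
    funext f
    exact c_eta f
  rw [this, Finset.image_id]

lemma closure_top : AddSubgroup.closure ((({c 1, c 6} : Finset (Fin 1 → ℤ))) : Set (Fin 1 → ℤ)) = ⊤ := by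
  rw [eq_top_iff]
  intro f _
  have h1 : c 1 ∈ AddSubgroup.closure ((({c 1, c 6} : Finset (Fin 1 → ℤ))) : Set (Fin 1 → ℤ)) :=
    AddSubgroup.subset_closure (by simp)
  have h2 := AddSubgroup.zsmul_mem _ h1 (f 0)
  have e : f 0 • c 1 = f := by
    funext i
    rw [Subsingleton.elim i 0]
    simp [c]
  rwa [e] at h2

/-- nine points: a `3 × 3` square -/
def T9 : Finset ℤ := {0, 1, 2, 6, 7, 8, 12, 13, 14}

/-- thirteen consecutive integers -/
def T13 : Finset ℤ := {0, 1, 2, 3, 4, 5, 6, 7, 8, 9, 10, 11, 12}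

lemma T9_card : T9.card = 9 := by rfl

lemma T13_card : T13.card = 13 := by rfl

lemma T9_bd : D T9 1 + D T9 (-1) + D T9 6 + D T9 (-6) ≤ 12 := by
  decide +kernel

lemma T13_bd : D T13 1 + D T13 (-1) + D T13 6 + D T13 (-6) ≤ 14 := by
  decide +kernel

lemma card_im (e : ℕ ≃ (Fin 1 → ℤ)) (n : ℕ) :
    (((Finset.range n).image ⇑e).image (fun f => f 0)).card = n := by
  rw [Finset.card_image_of_injective, Finset.card_image_of_injective _ e.injective,
    Finset.card_range]
  intro f g h
  rw [← c_eta f, ← c_eta g]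
  exact congrArg c h

theorem bd_eq' (S : Finset (Fin 1 → ℤ)) :
    ((S ×ˢ (({c 1, c 6} : Finset (Fin 1 → ℤ)) ∪
      ({c 1, c 6} : Finset (Fin 1 → ℤ)).image (fun u => -u))).filter
        (fun p => p.1 + p.2 ∉ S)).card =
      D (S.image (fun f => f 0)) 1 + D (S.image (fun f => f 0)) (-1) +
      D (S.image (fun f => f 0)) 6 + D (S.image (fun f => f 0)) (-6) := by
  have h := bd_eq (S.image (fun f => f 0))
  rw [img_eta] at h
  exact h

/-- Nested optimal sets do not exist for `d = 1` and the generators `1` and `6`. -/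
theorem main (e : ℕ ≃ (Fin 1 → ℤ))
    (he : ∀ n : ℕ, 1 ≤ n → ∀ S : Finset (Fin 1 → ℤ), S.card = n →
        ((((Finset.range n).image ⇑e) ×ˢ (({c 1, c 6} : Finset (Fin 1 → ℤ)) ∪
          ({c 1, c 6} : Finset (Fin 1 → ℤ)).image (fun u => -u))).filter
            (fun p => p.1 + p.2 ∉ (Finset.range n).image ⇑e)).card ≤
        ((S ×ˢ (({c 1, c 6} : Finset (Fin 1 → ℤ)) ∪
          ({c 1, c 6} : Finset (Fin 1 → ℤ)).image (fun u => -u))).filter
            (fun p => p.1 + p.2 ∉ S)).card) : False := by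
  have k9 := he 9 (by norm_num) (T9.image c)
    (by rw [Finset.card_image_of_injective _ c_inj, T9_card])
  have k13 := he 13 (by norm_num) (T13.image c)
    (by rw [Finset.card_image_of_injective _ c_inj, T13_card])
  rw [bd_eq', bd_eq] at k9 k13
  have h9 := le_trans k9 T9_bd
  have h13 := le_trans k13 T13_bd
  refine no_nested _ _ ?_ (card_im e 9) (card_im e 13) h9 h13
  apply Finset.image_subset_image
  apply Finset.image_subset_image
  intro x hx
  rw [Finset.mem_range] at hx ⊢
  omega

end Pool.Agent.N692.Nest
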